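import Mathlib
import Pool.Agent.MP_8fd344_co.Defs
import Pool.Agent.MP_8fd344_co.Reg.Defs

attribute [-instance] RKHS.instFunLike SemilinearMapClass.toAddHomClass instCharZeroOfIsSemireal
  MonoidWithZeroHomClass.toZeroHomClass Group.IsPerfect.subsingleton_of_isMulCommutative
  SemilatticeInf.toPartialOrder MonTypeEquivalenceMon.monMonoid
  FirstOrder.Language.instDecidableEqRelations CompletePartialOrder.toPartialOrder
  AddQuantale.instAddLeftMono NumberField.to_charZero RCLike.charZero_rclike IdemSemiring.toSemiring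
  FirstOrder.Language.instDecidableEqFunctions CommRing.toRing LinearOrder.toDecidableEq
  Unique.instSubsingleton List.instDecidableMemOfLawfulBEq littleWedderburn
  AddCommMonoidWithOne.toAddMonoidWithOne NormedRing.toRing NormedField.toField
  NormMulClass.toNoZeroDivisors NonUnitalNonAssocSemiring.toMulZeroClass Option.decidableExistsMem
  AddCommGroupWithOne.toAddGroupWithOne Finset.decidableExistsAndFinset Finset.decidableDExistsFinset
  GrpTypeEquivalenceGrp.grpGroup BooleanRing.toRing NonUnitalNonAssocRing.toAddCommGroup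
  Multiset.decidableDexistsMultiset Vector.instDecidableExistsAndMemOfDecidablePred List.decidableBEx

-- part MP_8fd344_co.Reg.Order
section

/-! The sharp ordering lemma: every bipartite graph has a build order whose cost is at most the
value of some collapse. -/

namespace Pool.Agent.MP_8fd344_co.Reg

open Finset

set_option linter.unusedSectionVars false

variable {V : Type} [DecidableEq V]

structure Rules (A : V → V → Prop) (Bd : Finset V → ℕ → Prop) : Prop where
  rM : ∀ S c c', Bd S c → c ≤ c' → Bd S c'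
  r2 : ∀ S c v, Bd S c → Bd (insert v S) (c + 2)
  r1 : ∀ S c v u, u ∈ S → A v u → Bd S c → Bd (insert v S) (c + 1)
  r0 : ∀ S c v u u', u ∈ S → u' ∈ S → u ≠ u' → A v u → A v u' → Bd S c → Bd (insert v S) c

/-- knowing `R`, the set `S` can be built at cost `c` -/
def Rel (Bd : Finset V → ℕ → Prop) (R S : Finset V) (c : ℕ) : Prop :=
  ∀ T c0, R ⊆ T → Bd T c0 → Bd (T ∪ S) (c0 + c)

def edges (A : V → V → Prop) [DecidableRel A] (side : V → Bool) (S : Finset V) : Finset (V × V) :=
  (S ×ˢ S).filter (fun e => A e.1 e.2 ∧ side e.1 = true)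

lemma mem_edges {A : V → V → Prop} [DecidableRel A] {side : V → Bool} {S : Finset V} {e : V × V} :
    e ∈ edges A side S ↔ e.1 ∈ S ∧ e.2 ∈ S ∧ A e.1 e.2 ∧ side e.1 = true := by
  simp [edges, and_assoc]

def FV (A : V → V → Prop) [DecidableRel A] (side : V → Bool) (S : Finset V) {γ : Type}
    [DecidableEq γ] (φ : V → γ) : ℤ :=
  2 * ((S.image φ).card : ℤ) - ((edges A side S).image (Prod.map φ φ)).card

def Conn (A : V → V → Prop) (t : V) (C : Finset V) : Prop :=
  t ∈ C ∧ ∀ T ⊆ C, t ∈ T → T ≠ C → ∃ x ∈ T, ∃ y ∈ C, y ∉ T ∧ A x y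

variable {A : V → V → Prop} [DecidableRel A] {side : V → Bool} {Bd : Finset V → ℕ → Prop}

lemma Rel.comp {R S R' S' : Finset V} {c c' : ℕ} (h : Rel Bd R S c) (h' : Rel Bd R' S' c')
    (hR : R' ⊆ R ∪ S) : Rel Bd R (S ∪ S') (c + c') := by
  intro T c0 hT hB
  rw [← union_assoc, ← add_assoc]
  exact h' _ _ (hR.trans (union_subset_union_left hT)) (h T c0 hT hB)

lemma Rel.congr {R S R' S' : Finset V} {c : ℕ} (h : Rel Bd R S c) (hR : R ⊆ R')
    (hS : ∀ x, x ∉ R' → (x ∈ S ↔ x ∈ S')) : Rel Bd R' S' c := by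
  intro T c0 hT hB
  have : T ∪ S' = T ∪ S := by
    ext x
    by_cases hx : x ∈ T
    · simp [hx]
    · simp [hx, hS x (fun h => hx (hT h))]
  rw [this]
  exact h T c0 (hR.trans hT) hB

lemma rel_zero (R : Finset V) : Rel Bd R ∅ 0 := fun T c0 _ hB => by simpa using hB

lemma rel_step (R : Rules A Bd) (D : Finset V) (v : V) :
    Rel Bd D {v} (2 - (D.filter (A v)).card) := by
  intro T c0 hT hB
  rw [union_comm, ← insert_eq]
  rcases Nat.lt_or_ge 1 (D.filter (A v)).card with h | h
  · obtain ⟨u, hu, u', hu', hne⟩ := one_lt_card.1 h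
    rw [mem_filter] at hu hu'
    exact R.rM _ _ _ (R.r0 T c0 v u u' (hT hu.1) (hT hu'.1) hne hu.2 hu'.2 hB) (by omega)
  · rcases (D.filter (A v)).eq_empty_or_nonempty with h0 | ⟨u, hu⟩
    · rw [h0]
      exact R.r2 T c0 v hB
    · have := card_pos.2 ⟨u, hu⟩
      rw [mem_filter] at hu
      exact R.rM _ _ _ (R.r1 T c0 v u (hT hu.1) hu.2 hB) (by omega)

lemma FV_insert (hs : ∀ x y, A x y → A y x) (hside : ∀ x y, A x y → side x ≠ side y)
    (S : Finset V) (v : V) (hv : v ∉ S) (φ : V → ℕ) :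
    ∃ ψ : V → ℕ, FV A side S φ + 2 - (S.filter (A v)).card ≤ FV A side (insert v S) ψ := by
  let ψ := Function.update φ v (S.sup φ + 1)
  have hψ : ∀ x ∈ S, ψ x = φ x := fun x hx =>
    Function.update_of_ne (fun h : x = v => hv (h ▸ hx)) _ _
  refine ⟨ψ, ?_⟩
  have i1 : ((insert v S).image ψ).card = (S.image φ).card + 1 := by
    rw [image_insert, image_congr (g := φ) hψ, card_insert_of_notMem]
    intro h
    obtain ⟨x, hx, h⟩ := mem_image.1 h
    have := le_sup (f := φ) hx
    simp only [ψ, Function.update_self] at h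
    omega
  have i2 : (edges A side (insert v S)).image (Prod.map ψ ψ) ⊆
      (edges A side S).image (Prod.map φ φ) ∪
        (S.filter (A v)).image (fun u => if side v = true then (ψ v, ψ u) else (ψ u, ψ v)) := by
    intro z hz
    obtain ⟨⟨x, y⟩, he, rfl⟩ := mem_image.1 hz
    obtain ⟨hx, hy, hA, hsx⟩ := mem_edges.1 he
    simp only [mem_insert] at hx hy hA hsx
    rw [mem_union]
    rcases hx with rfl | hx
    · rcases hy with rfl | hy
      · exact absurd rfl (hside _ _ hA)
      · exact Or.inr (mem_image.2 ⟨y, mem_filter.2 ⟨hy, hA⟩, by simp [hsx]⟩)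
    · rcases hy with rfl | hy
      · have h1 : side y ≠ true := fun h => hside _ _ hA (by rw [hsx, h])
        exact Or.inr (mem_image.2 ⟨x, mem_filter.2 ⟨hx, hs _ _ hA⟩, by simp [h1]⟩)
      · exact Or.inl (mem_image.2 ⟨(x, y), mem_edges.2 ⟨hx, hy, hA, hsx⟩, by
          simp [hψ x hx, hψ y hy]⟩)
  have i3 := (card_le_card i2).trans ((card_union_le _ _).trans
    (Nat.add_le_add_left card_image_le _))
  unfold FV
  zify at i1 i3
  linarith

lemma FV_glue (hs : ∀ x y, A x y → A y x) (S1 S2 : Finset V) (w : V) (h2 : w ∈ S2)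
    (hw : ∀ x ∈ S1, x ∈ S2 → x = w) (h1 : w ∈ S1)
    (hA : ∀ x ∈ S2, x ≠ w → ∀ y ∈ S1, y ≠ w → ¬ A x y) (φ1 φ2 : V → ℕ) :
    ∃ ψ : V → ℕ, FV A side S1 φ1 + FV A side S2 φ2 - 2 ≤ FV A side (S1 ∪ S2) ψ := by
  let h : ℕ → ℕ := fun n => if n = φ2 w then 2 * φ1 w else 2 * n + 1
  let ψ : V → ℕ := fun x => if x ∈ S1 then 2 * φ1 x else h (φ2 x)
  have e1 : ∀ x ∈ S1, ψ x = 2 * φ1 x := fun x hx => if_pos hx
  have e2 : ∀ x ∈ S2, ψ x = h (φ2 x) := by
    intro x hx
    by_cases h' : x ∈ S1
    · rw [hw x h' hx, e1 w h1]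
      simp [h]
    · exact if_neg h'
  refine ⟨ψ, ?_⟩
  have i1 : (S1.image φ1).image (fun n => 2 * n) ∪
      ((S2.image φ2).erase (φ2 w)).image (fun n => 2 * n + 1) ⊆ (S1 ∪ S2).image ψ := by
    intro n hn
    rcases mem_union.1 hn with hn | hn
    · obtain ⟨_, hm, rfl⟩ := mem_image.1 hn
      obtain ⟨x, hx, rfl⟩ := mem_image.1 hm
      exact mem_image.2 ⟨x, mem_union_left _ hx, e1 x hx⟩
    · obtain ⟨_, hm, rfl⟩ := mem_image.1 hn
      obtain ⟨x, hx, rfl⟩ := mem_image.1 (mem_erase.1 hm).2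
      exact mem_image.2 ⟨x, mem_union_right _ hx, by
        rw [e2 x hx]; exact if_neg (mem_erase.1 hm).1⟩
  have i2 := card_le_card i1
  rw [card_union_of_disjoint (by
      rw [disjoint_left]
      intro n hn hn'
      obtain ⟨_, -, rfl⟩ := mem_image.1 hn
      obtain ⟨_, -, h⟩ := mem_image.1 hn'
      omega), card_image_of_injective (f := fun n => 2 * n) _ (fun a b h => by simpa using h),
    card_image_of_injective (f := fun n => 2 * n + 1) _ (fun a b h => by simpa using h),
    card_erase_of_mem (mem_image_of_mem _ h2)] at i2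
  have i3 : (edges A side (S1 ∪ S2)).image (Prod.map ψ ψ) ⊆
      ((edges A side S1).image (Prod.map φ1 φ1)).image (Prod.map (2 * ·) (2 * ·)) ∪
        ((edges A side S2).image (Prod.map φ2 φ2)).image (Prod.map h h) := by
    intro z hz
    obtain ⟨⟨x, y⟩, he, rfl⟩ := mem_image.1 hz
    obtain ⟨hx, hy, hxy, hsx⟩ := mem_edges.1 he
    simp only [mem_union] at hx hy hxy hsx
    have key : (x ∈ S1 ∧ y ∈ S1) ∨ (x ∈ S2 ∧ y ∈ S2) := by
      by_cases hxw : x = w
      · subst hxw; tauto
      by_cases hyw : y = w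
      · subst hyw; tauto
      rcases hx with hx | hx <;> rcases hy with hy | hy
      · tauto
      · exact absurd (hs _ _ hxy) (hA y hy hyw x hx hxw)
      · exact absurd hxy (hA x hx hxw y hy hyw)
      · tauto
    rw [mem_union, image_image, image_image]
    rcases key with ⟨hx, hy⟩ | ⟨hx, hy⟩
    · exact Or.inl (mem_image.2 ⟨(x, y), mem_edges.2 ⟨hx, hy, hxy, hsx⟩, by
        simp [e1 x hx, e1 y hy]⟩)
    · exact Or.inr (mem_image.2 ⟨(x, y), mem_edges.2 ⟨hx, hy, hxy, hsx⟩, by
        simp [e2 x hx, e2 y hy]⟩)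
  have i4 := (card_le_card i3).trans ((card_union_le _ _).trans
    (Nat.add_le_add card_image_le card_image_le))
  have i5 := card_pos.2 ⟨_, mem_image_of_mem φ2 h2⟩
  unfold FV
  omega

lemma FV_side [Fintype V] (hside : ∀ x y, A x y → side x ≠ side y) (S : Finset V) (s t : V)
    (h1 : s ∈ S) (h2 : t ∈ S) (hst : A s t) :
    ∃ φ : V → ℕ, (S.card : ℤ) + 4 ≤ 2 * FV A side S φ := by
  let ι : V → ℕ := fun x => Fintype.equivFin V x
  have hι : Function.Injective ι := fun a b h => (Fintype.equivFin V).injective (Fin.ext h)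
  have key : ∀ a ∈ S, ∃ φ : V → ℕ,
      ((S.filter (fun x => ¬ side x = side a)).card : ℤ) + 2 ≤ FV A side S φ := by
    intro a ha
    refine ⟨fun x => ι (if side x = side a then a else x), ?_⟩
    have i1 : (insert a (S.filter (fun x => ¬ side x = side a))).image ι ⊆
        S.image (fun x => ι (if side x = side a then a else x)) := by
      intro n hn
      obtain ⟨x, hx, rfl⟩ := mem_image.1 hn
      rcases mem_insert.1 hx with rfl | hx
      · exact mem_image.2 ⟨x, ha, by simp⟩
      · rw [mem_filter] at hx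
        exact mem_image.2 ⟨x, hx.1, by simp [hx.2]⟩
    have i2 := card_le_card i1
    rw [card_image_of_injective _ hι, card_insert_of_notMem (by simp)] at i2
    have i3 : (edges A side S).image (Prod.map (fun x => ι (if side x = side a then a else x))
        (fun x => ι (if side x = side a then a else x))) ⊆
        (S.filter (fun x => ¬ side x = side a)).image
          (fun y => if side a = true then (ι a, ι y) else (ι y, ι a)) := by
      intro z hz
      obtain ⟨⟨x, y⟩, he, rfl⟩ := mem_image.1 hz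
      obtain ⟨hx, hy, hA, hsx⟩ := mem_edges.1 he
      have hne := hside _ _ hA
      simp only at hx hy hA hsx hne
      have hsy : side y = false := by
        rw [hsx] at hne
        simpa using hne.symm
      cases hb : side a
      · exact mem_image.2 ⟨x, mem_filter.2 ⟨hx, by simp [hsx]⟩, by simp [hsx, hsy]⟩
      · exact mem_image.2 ⟨y, mem_filter.2 ⟨hy, by simp [hsy]⟩, by simp [hsx, hsy]⟩
    have i4 := le_trans (card_le_card i3) card_image_le
    unfold FV
    omega
  obtain ⟨φ1, b1⟩ := key s h1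
  obtain ⟨φ2, b2⟩ := key t h2
  have hc := card_filter_add_card_filter_not (s := S) (fun x => side x = side s)
  have e2 : S.filter (fun x => ¬ side x = side t) = S.filter (fun x => side x = side s) := by
    refine filter_congr fun x _ => ?_
    have := hside _ _ hst
    revert this
    cases side x <;> cases side s <;> cases side t <;> simp
  rw [e2] at b2
  by_cases h : FV A side S φ1 ≤ FV A side S φ2
  · exact ⟨φ2, by omega⟩
  · exact ⟨φ1, by omega⟩

omit [DecidableRel A] in
lemma Conn.insert {t x y : V} {C : Finset V} (h : Conn A t C) (hx : x ∈ C) (hxy : A x y) :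
    Conn A t (insert y C) := by
  refine ⟨mem_insert_of_mem h.1, fun T hT ht hne => ?_⟩
  by_cases hC : T ∩ C = C
  · have h1 : C ⊆ T := by rw [← hC]; exact inter_subset_left
    refine ⟨x, h1 hx, y, mem_insert_self _ _, fun hy => hne ?_, hxy⟩
    exact Subset.antisymm hT (insert_subset hy h1)
  · obtain ⟨a, ha, b, hb, hb', hab⟩ := h.2 (T ∩ C) inter_subset_right (mem_inter.2 ⟨ht, h.1⟩) hC
    exact ⟨a, (mem_inter.1 ha).1, b, mem_insert_of_mem hb,
      fun h' => hb' (mem_inter.2 ⟨h', hb⟩), hab⟩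

omit [DecidableRel A] in
lemma conn_single (t : V) : Conn A t {t} :=
  ⟨mem_singleton_self t, fun _ hT ht hne =>
    absurd (Subset.antisymm hT (singleton_subset_iff.2 ht)) hne⟩

/-- no vertex separates a part of `S` from the root edge -/
def NoSep (A : V → V → Prop) (S : Finset V) (s t : V) : Prop :=
  ∀ w ∈ S, ∀ R ⊆ S, R.Nonempty → w ∉ R → s ∉ R → t ∉ R → ∃ x ∈ R, ∃ y ∈ S, y ∉ R ∧ y ≠ w ∧ A x y

omit [DecidableRel A] in
/-- the next vertex of an `st`-numbering -/
lemma next_vertex (hs : ∀ x y, A x y → A y x) {S Q : Finset V} {s t : V} (hN : NoSep A S s t)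
    (hQ : Q ⊆ S) (hsQ : s ∉ Q) (hC : Conn A t Q) (hne : Q ≠ {t}) :
    ∃ v ∈ Q, v ≠ t ∧ (∃ u ∈ S, u ∉ Q ∧ A v u) ∧ (∃ u ∈ Q.erase v, A v u) ∧
      Conn A t (Q.erase v) := by
  classical
  have h0 : ∃ v ∈ Q, v ≠ t ∧ ∃ u ∈ S, u ∉ Q ∧ A v u := by
    obtain ⟨x, hx, y, hy, hy', hyt, hxy⟩ := hN t (hQ hC.1) (Q.erase t)
      ((erase_subset _ _).trans hQ) (by
        rw [nonempty_iff_ne_empty]
        intro h
        exact hne (by rw [← insert_erase hC.1, h]; rfl)) (notMem_erase _ _)
      (fun h => hsQ (mem_of_mem_erase h)) (notMem_erase _ _)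
    exact ⟨x, mem_of_mem_erase hx, ne_of_mem_erase hx, y, hy,
      fun h => hy' (mem_erase.2 ⟨hyt, h⟩), hxy⟩
  obtain ⟨C, hCm, hmax⟩ := exists_max_image (Q.powerset.filter fun C => Conn A t C ∧
    ∃ v ∈ Q, v ≠ t ∧ (∃ u ∈ S, u ∉ Q ∧ A v u) ∧ v ∉ C) card (by
      obtain ⟨v, hv, hvt, h⟩ := h0
      exact ⟨{t}, mem_filter.2 ⟨mem_powerset.2 (singleton_subset_iff.2 hC.1), conn_single t,
        v, hv, hvt, h, by simpa using hvt⟩⟩)
  obtain ⟨hCQ, hCc, v, hv, hvt, hvu, hvC⟩ := mem_filter.1 hCm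
  rw [mem_powerset] at hCQ
  have grow : ∀ x ∈ C, ∀ y ∈ Q, y ∉ C → A x y → ∀ w ∈ Q, w ≠ t → (∃ u ∈ S, u ∉ Q ∧ A w u) →
      w ∉ C → w = y := by
    intro x hx y hy hyC hxy w hw hwt hwu hwC
    by_contra hwy
    have := hmax (insert y C) (mem_filter.2 ⟨mem_powerset.2 (insert_subset hy hCQ),
      hCc.insert hx hxy, w, hw, hwt, hwu, by simp [hwy, hwC]⟩)
    rw [card_insert_of_notMem hyC] at this
    omega
  obtain ⟨x, hx, y, hy, hyC, hxy⟩ := hC.2 C hCQ hCc.1 (fun h => hvC (h ▸ hv))
  obtain rfl := grow x hx y hy hyC hxy v hv hvt hvu hvC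
  have hE : Q.erase v = C := by
    refine Subset.antisymm ?_ (fun z hz => mem_erase.2 ⟨fun h => hvC (h ▸ hz), hCQ hz⟩)
    by_contra hn
    obtain ⟨a, ha, b, hb, hb', hbv, hab⟩ := hN v (hQ hv) (Q.erase v \ C)
      (sdiff_subset.trans ((erase_subset _ _).trans hQ)) (sdiff_nonempty.2 hn) (by simp)
      (by simp [hsQ]) (by simp [hCc.1])
    simp only [mem_sdiff, mem_erase] at ha hb'
    have hat : a ≠ t := fun h => ha.2 (h ▸ hCc.1)
    by_cases hbQ : b ∈ Q
    · have hbC : b ∈ C := by tauto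
      exact ha.1.1 (grow b hbC a ha.1.2 ha.2 (hs _ _ hab) v hv hvt hvu hvC).symm
    · exact ha.1.1 (grow x hx v hv hvC hxy a ha.1.2 hat ⟨b, hb, hbQ, hab⟩ ha.2)
  exact ⟨v, hv, hvt, hvu, ⟨x, hE ▸ hx, hs _ _ hxy⟩, hE ▸ hCc⟩

lemma two_orders (R : Rules A Bd) (hs : ∀ x y, A x y → A y x) {S : Finset V} {s t : V}
    (hN : NoSep A S s t) (hdeg : ∀ v ∈ S, v ≠ s → v ≠ t → 3 ≤ ((S.erase v).filter (A v)).card)
    (Q : Finset V) : Q ⊆ S → s ∉ Q → Conn A t Q → ∀ c1 c2, Rel Bd {s, t} (S \ Q) c1 →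
      Rel Bd (insert s Q) (S \ Q) c2 → c1 + c2 + 1 + Q.card ≤ S.card →
      ∃ c, Rel Bd {s, t} S c ∧ 2 * c + 2 ≤ S.card := by
  induction Q using Finset.strongInduction with
  | H Q ih =>
  intro hQ hsQ hC c1 c2 h1 h2 hc
  by_cases hne : Q = {t}
  · subst hne
    rw [card_singleton] at hc
    have hh : ∀ x, x ∉ ({s, t} : Finset V) → (x ∈ S \ {t} ↔ x ∈ S) := by
      intro x hx
      simp only [mem_insert, mem_singleton, not_or] at hx
      simp [hx.2]
    rcases le_total c1 c2 with h | h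
    · exact ⟨c1, h1.congr Subset.rfl hh, by omega⟩
    · exact ⟨c2, h2.congr Subset.rfl hh, by omega⟩
  obtain ⟨v, hv, hvt, ⟨u, hu, huQ, hvu⟩, ⟨u', hu', hvu'⟩, hC'⟩ := next_vertex hs hN hQ hsQ hC hne
  have a1 := card_pos.2 ⟨u, mem_filter.2 ⟨mem_sdiff.2 ⟨hu, huQ⟩, hvu⟩⟩
  have a2 := card_pos.2 ⟨u', mem_filter.2 ⟨hu', hvu'⟩⟩
  have a3 : (S.erase v).filter (A v) ⊆ (S \ Q).filter (A v) ∪ (Q.erase v).filter (A v) := by
    intro z hz
    simp only [mem_filter, mem_erase, mem_union, mem_sdiff] at hz ⊢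
    tauto
  have a4 := (hdeg v (hQ hv) (fun h => hsQ (h ▸ hv)) hvt).trans
    ((card_le_card a3).trans (card_union_le _ _))
  have a5 := card_erase_add_one hv
  refine ih (Q.erase v) (erase_ssubset hv) ((erase_subset _ _).trans hQ)
    (fun h => hsQ (mem_of_mem_erase h)) hC' _ _
    ((h1.comp (rel_step R (S \ Q) v) subset_union_right).congr Subset.rfl fun x _ => ?_)
    ((((rel_step R (Q.erase v) v).congr (subset_insert s _) fun _ _ => Iff.rfl).comp h2 ?_).congr
      Subset.rfl fun x _ => ?_) (by omega)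
  · have := hQ hv
    simp only [mem_union, mem_sdiff, mem_erase, mem_singleton]
    by_cases h : x = v <;> simp [h, this]
  · intro x hx
    simp only [mem_union, mem_insert, mem_erase, mem_singleton] at hx ⊢
    tauto
  · have := hQ hv
    simp only [mem_union, mem_sdiff, mem_erase, mem_singleton]
    by_cases h : x = v <;> simp [h, this]

omit [DecidableRel A] in
lemma conn_erase (hs : ∀ x y, A x y → A y x) {S : Finset V} {s t : V} (hN : NoSep A S s t)
    (h1 : s ∈ S) (h2 : t ∈ S) (hst : s ≠ t) : Conn A t (S.erase s) := by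
  refine ⟨mem_erase.2 ⟨hst.symm, h2⟩, fun T hT ht hne => ?_⟩
  obtain ⟨a, ha, b, hb, hb', hbs, hab⟩ := hN s h1 (S.erase s \ T)
    (sdiff_subset.trans (erase_subset _ _))
    (sdiff_nonempty.2 fun h => hne (Subset.antisymm hT h)) (by simp) (by simp) (by simp [ht])
  simp only [mem_sdiff, mem_erase] at ha hb'
  exact ⟨b, by tauto, a, mem_erase.2 ha.1, ha.2, hs _ _ hab⟩

theorem order_lemma [Fintype V] (R : Rules A Bd) (hs : ∀ x y, A x y → A y x)
    (hside : ∀ x y, A x y → side x ≠ side y) (S : Finset V) :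
    (∀ s ∈ S, ∀ t ∈ S, A s t →
      ∃ (c : ℕ) (φ : V → ℕ), Rel Bd {s, t} S c ∧ (c : ℤ) + 3 ≤ FV A side S φ) ∧
    (∀ s ∈ S, ∃ (c : ℕ) (φ : V → ℕ), Rel Bd {s} S c ∧ (c : ℤ) + 2 ≤ FV A side S φ) ∧
    ∃ (c : ℕ) (φ : V → ℕ), Rel Bd ∅ S c ∧ (c : ℤ) ≤ FV A side S φ := by
  induction S using Finset.strongInduction with
  | H S ih =>
  have hP : ∀ s ∈ S, ∀ t ∈ S, A s t →
      ∃ (c : ℕ) (φ : V → ℕ), Rel Bd {s, t} S c ∧ (c : ℤ) + 3 ≤ FV A side S φ := by
    intro s h1 t h2 hst
    have hne : s ≠ t := fun h => hside _ _ hst (by rw [h])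
    by_cases hdeg : ∀ v ∈ S, v ≠ s → v ≠ t → 3 ≤ ((S.erase v).filter (A v)).card
    swap
    · push Not at hdeg
      obtain ⟨v, hv, hvs, hvt, hd⟩ := hdeg
      obtain ⟨c, φ, hB, hc⟩ := (ih (S.erase v) (erase_ssubset hv)).1 s
        (mem_erase.2 ⟨hvs.symm, h1⟩) t (mem_erase.2 ⟨hvt.symm, h2⟩) hst
      obtain ⟨ψ, hψ⟩ := FV_insert hs hside (S.erase v) v (notMem_erase _ _) φ
      rw [insert_erase hv] at hψ
      refine ⟨_, ψ, (hB.comp (rel_step R (S.erase v) v) subset_union_right).congr Subset.rfl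
        fun x _ => ?_, by omega⟩
      by_cases h : x = v <;> simp [h, hv]
    by_cases hN : NoSep A S s t
    · obtain ⟨c, hB, hc⟩ := two_orders R hs hN hdeg (S.erase s) (erase_subset _ _)
        (notMem_erase _ _) (conn_erase hs hN h1 h2 hne) 0 0
        ((rel_zero ∅).congr (empty_subset _) fun x hx => by
          simp only [mem_insert, mem_singleton, not_or] at hx
          simp [hx.1])
        ((rel_zero ∅).congr (empty_subset _) fun x hx => by
          simp only [mem_insert, not_or] at hx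
          simp [hx.1]) (by have := card_erase_add_one h1; omega)
      obtain ⟨φ, hφ⟩ := FV_side hside S s t h1 h2 hst
      exact ⟨c, φ, hB, by omega⟩
    · unfold NoSep at hN
      push Not at hN
      obtain ⟨w, hw, Q, hQ, ⟨z, hz⟩, hwQ, hsQ, htQ, hN⟩ := hN
      obtain ⟨c, φ, hB, hc⟩ := (ih (S \ Q) (Finset.ssubset_iff_subset_ne.2 ⟨sdiff_subset, fun h => by
        have := hQ hz
        rw [← h] at this
        exact (mem_sdiff.1 this).2 hz⟩)).1 s (mem_sdiff.2 ⟨h1, hsQ⟩) t (mem_sdiff.2 ⟨h2, htQ⟩) hst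
      obtain ⟨c', φ', hB', hc'⟩ := (ih (insert w Q) (Finset.ssubset_iff_subset_ne.2
        ⟨insert_subset hw hQ, fun h => by
          rw [← h, mem_insert] at h1 h2
          exact hne ((h1.resolve_right hsQ).trans (h2.resolve_right htQ).symm)⟩)).2.1 w
        (mem_insert_self _ _)
      obtain ⟨ψ, hψ⟩ := FV_glue (side := side) hs (S \ Q) (insert w Q) w (mem_insert_self _ _)
        (fun x hx hx' => (mem_insert.1 hx').resolve_right (mem_sdiff.1 hx).2)
        (mem_sdiff.2 ⟨hw, hwQ⟩) (fun x hx hxw y hy hyw => hN x ((mem_insert.1 hx).resolve_left hxw)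
          y (mem_sdiff.1 hy).1 (mem_sdiff.1 hy).2 hyw) φ φ'
      have hS : S \ Q ∪ insert w Q = S := by
        ext x
        have := @hQ x
        simp only [mem_union, mem_sdiff, mem_insert]
        by_cases h : x = w
        · simp [h, hw]
        · tauto
      have := hB.comp hB' (by simp [hw, hwQ])
      rw [hS] at this hψ
      exact ⟨_, ψ, this, by push_cast; omega⟩
  have hV : ∀ s ∈ S, ∃ (c : ℕ) (φ : V → ℕ), Rel Bd {s} S c ∧ (c : ℤ) + 2 ≤ FV A side S φ := by
    intro s h1
    by_cases h : ∃ t ∈ S, A s t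
    · obtain ⟨t, h2, hst⟩ := h
      obtain ⟨c, φ, hB, hc⟩ := hP s h1 t h2 hst
      have a1 := card_pos.2 ⟨s, mem_filter.2 ⟨mem_singleton_self s, hs _ _ hst⟩⟩
      refine ⟨_, φ, ((rel_step R {s} t).comp hB Subset.rfl).congr Subset.rfl fun x _ => ?_,
        by omega⟩
      by_cases h : x = t <;> simp [h, h2]
    · obtain ⟨c, φ, hB, hc⟩ := (ih (S.erase s) (erase_ssubset h1)).2.2
      obtain ⟨ψ, hψ⟩ := FV_insert hs hside (S.erase s) s (notMem_erase _ _) φ
      rw [insert_erase h1, filter_eq_empty_iff.2 fun t ht hst =>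
        h ⟨t, mem_of_mem_erase ht, hst⟩] at hψ
      exact ⟨c, ψ, hB.congr (empty_subset _) fun x hx => by
        simp only [mem_singleton] at hx
        simp [hx], by simp at hψ; omega⟩
  refine ⟨hP, hV, ?_⟩
  rcases S.eq_empty_or_nonempty with rfl | ⟨s, h1⟩
  · exact ⟨0, fun _ => 0, rel_zero _, by simp [FV, edges]⟩
  · obtain ⟨c, φ, hB, hc⟩ := hV s h1
    refine ⟨_, φ, ((rel_step R ∅ s).comp hB (by simp)).congr Subset.rfl fun x _ => ?_,
      by simp; omega⟩
    by_cases h : x = s <;> simp [h, h1]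

end Pool.Agent.MP_8fd344_co.Reg

end

-- part MP_8fd344_co.Reg.Count
section

/-! The value `sVal`, counting homomorphisms into graphs of bounded codegree, spectra. -/

namespace Pool.Agent.MP_8fd344_co.Reg

open Finset

/-- twice the number of image vertices minus the number of image edges -/
def fVal (H : BG) {α β : Type} [DecidableEq α] [DecidableEq β] (f : H.V1 → α) (g : H.V2 → β) : ℤ :=
  2 * (((univ.image f).card : ℤ) + (univ.image g).card) -
    (H.E.image (fun e => (f e.1, g e.2))).card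

noncomputable def sVal (H : BG) : ℤ := 2 * (numV H : ℤ) - rVal H

lemma isCollapse_refl (H : BG) : IsCollapse H H :=
  ⟨id, id, fun _ he => he, Function.surjective_id, Function.surjective_id, fun e he => ⟨e, he, rfl⟩⟩

lemma numV_le_of_collapse {H H' : BG} (h : IsCollapse H H') : numV H' ≤ numV H := by
  obtain ⟨f, g, -, hf, hg, -⟩ := h
  have h1 := Fintype.card_le_of_surjective f hf
  have h2 := Fintype.card_le_of_surjective g hg
  unfold numV; omega

/-- image graph -/
abbrev imG (H : BG) {α β : Type} [DecidableEq α] [DecidableEq β] (f : H.V1 → α) (g : H.V2 → β) : BG where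
  V1 := {a // a ∈ univ.image f}
  V2 := {b // b ∈ univ.image g}
  E := H.E.image (fun e => (⟨f e.1, mem_image_of_mem f (mem_univ _)⟩,
    ⟨g e.2, mem_image_of_mem g (mem_univ _)⟩))

lemma isCollapse_imG (H : BG) {α β : Type} [DecidableEq α] [DecidableEq β] (f : H.V1 → α)
    (g : H.V2 → β) : IsCollapse H (imG H f g) := by
  refine ⟨fun x => ⟨f x, mem_image_of_mem f (mem_univ _)⟩,
    fun y => ⟨g y, mem_image_of_mem g (mem_univ _)⟩, ?_, ?_, ?_, ?_⟩
  · intro e he
    exact mem_image_of_mem _ he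
  · rintro ⟨a, ha⟩
    obtain ⟨x, -, rfl⟩ := mem_image.1 ha
    exact ⟨x, rfl⟩
  · rintro ⟨a, ha⟩
    obtain ⟨x, -, rfl⟩ := mem_image.1 ha
    exact ⟨x, rfl⟩
  · intro e' he'
    obtain ⟨e, he, rfl⟩ := mem_image.1 he'
    exact ⟨e, he, rfl⟩

lemma fVal_le_sVal (H : BG) {α β : Type} [DecidableEq α] [DecidableEq β] (f : H.V1 → α)
    (g : H.V2 → β) : fVal H f g ≤ sVal H := by
  have hc := isCollapse_imG H f g
  have h1 : rVal H ≤ (imG H f g).E.card + 2 * (numV H - numV (imG H f g)) :=
    Nat.sInf_le ⟨_, hc, rfl⟩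
  have h2 := numV_le_of_collapse hc
  have h3 : numV (imG H f g) = (univ.image f).card + (univ.image g).card := by
    simp only [numV, imG, Fintype.card_coe]
  have h4 : (imG H f g).E.card = (H.E.image (fun e => (f e.1, g e.2))).card := by
    have hinj : Function.Injective (Prod.map (Subtype.val : {a // a ∈ univ.image f} → α)
        (Subtype.val : {b // b ∈ univ.image g} → β)) :=
      Function.Injective.prodMap Subtype.val_injective Subtype.val_injective
    rw [← card_image_of_injective (imG H f g).E hinj]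
    simp only [imG, image_image]
    rfl
  unfold fVal sVal
  rw [h4, h3] at h1
  rw [h3] at h2
  zify [h2] at h1
  linarith only [h1]

lemma fVal_of_collapse {H H' : BG} {f : H.V1 → H'.V1} {g : H.V2 → H'.V2} (h0 : IsHom H H' f g)
    (hf : Function.Surjective f) (hg : Function.Surjective g)
    (he : ∀ e' ∈ H'.E, ∃ e ∈ H.E, (f e.1, g e.2) = e') :
    univ.image f = univ ∧ univ.image g = univ ∧ H.E.image (fun e => (f e.1, g e.2)) = H'.E := by
  refine ⟨image_univ_of_surjective hf, image_univ_of_surjective hg, ?_⟩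
  ext e'
  simp only [mem_image]
  constructor
  · rintro ⟨e, he, rfl⟩; exact h0 e he
  · exact he e'

lemma exists_fVal_eq (H : BG) : ∃ (H' : BG) (f : H.V1 → H'.V1) (g : H.V2 → H'.V2),
    Function.Surjective f ∧ Function.Surjective g ∧ fVal H f g = sVal H := by
  have hne : {m : ℕ | ∃ H' : BG, IsCollapse H H' ∧
      m = H'.E.card + 2 * (numV H - numV H')}.Nonempty := ⟨_, H, isCollapse_refl H, rfl⟩
  obtain ⟨H', hc, hm⟩ := Nat.sInf_mem hne
  have h2 := numV_le_of_collapse hc
  obtain ⟨f, g, h0, hf, hg, he⟩ := hc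
  refine ⟨H', f, g, hf, hg, ?_⟩
  obtain ⟨e1, e2, e3⟩ := fVal_of_collapse h0 hf hg he
  unfold fVal sVal rVal
  rw [e1, e2, e3, hm]
  push_cast [h2]
  simp only [numV, card_univ]
  push_cast
  ring

open Classical in
noncomputable def homSet (H G : BG) : Finset ((H.V1 → G.V1) × (H.V2 → G.V2)) :=
  univ.filter (fun φ => IsHom H G φ.1 φ.2)

lemma mem_homSet {H G : BG} {φ : (H.V1 → G.V1) × (H.V2 → G.V2)} :
    φ ∈ homSet H G ↔ IsHom H G φ.1 φ.2 := by
  simp only [homSet, mem_filter, mem_univ, true_and]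

lemma homCount_eq (H G : BG) : homCount H G = (homSet H G).card := by
  classical
  unfold homCount homSet
  rw [Nat.card_eq_fintype_card, Fintype.card_subtype]

lemma homCount_le_of_collapse {H H' : BG} (h : IsCollapse H H') (G : BG) :
    homCount H' G ≤ homCount H G := by
  obtain ⟨f, g, h0, hf, hg, -⟩ := h
  rw [homCount_eq, homCount_eq]
  refine card_le_card_of_injOn (fun φ => (φ.1 ∘ f, φ.2 ∘ g)) ?_ ?_
  · intro φ hφ
    rw [mem_coe, mem_homSet] at hφ ⊢
    intro e he
    exact hφ _ (h0 e he)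
  · intro φ _ ψ _ h
    simp only [Prod.mk.injEq] at h
    exact Prod.ext (hf.injective_comp_right h.1) (hg.injective_comp_right h.2)

lemma image_univ_sum {α β γ : Type} [Fintype α] [Fintype β] [DecidableEq γ] (f : α ⊕ β → γ) :
    univ.image f = univ.image (f ∘ Sum.inl) ∪ univ.image (f ∘ Sum.inr) := by
  ext c
  simp only [mem_image, mem_univ, true_and, Sum.exists, mem_union, Function.comp_apply]

section
variable {V W : Type} [Fintype V] [DecidableEq V] [DecidableEq W]

def res (S : Finset V) (Φ : V → W) : V → Option W := fun x => if x ∈ S then some (Φ x) else none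

omit [Fintype V] [DecidableEq W] in
lemma res_eq_iff {S : Finset V} {Φ Ψ : V → W} : res S Φ = res S Ψ ↔ ∀ x ∈ S, Φ x = Ψ x := by
  constructor
  · intro h x hx
    have := congrFun h x
    simpa [res, hx] using this
  · intro h
    funext x
    by_cases hx : x ∈ S
    · simp [res, hx, h x hx]
    · simp [res, hx]

lemma res_insert (F : Finset (V → W)) (S : Finset V) (v : V) (m : ℕ)
    (h : ∀ Φ0 ∈ F, ∃ N : Finset W, N.card ≤ m ∧ ∀ Φ ∈ F, (∀ x ∈ S, Φ x = Φ0 x) → Φ v ∈ N) :
    (F.image (res (insert v S))).card ≤ m * (F.image (res S)).card := by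
  let π : (V → Option W) → (V → Option W) := fun ρ x => if x ∈ S then ρ x else none
  have hπ : ∀ Φ : V → W, π (res (insert v S) Φ) = res S Φ := by
    intro Φ
    funext x
    by_cases hx : x ∈ S
    · simp [π, res, hx]
    · simp [π, res, hx]
  have him : (F.image (res (insert v S))).image π = F.image (res S) := by
    rw [image_image]
    exact image_congr fun Φ _ => hπ Φ
  rw [← him]
  refine card_le_mul_card_image _ m ?_
  intro ρ hρ
  rw [him] at hρ
  obtain ⟨Φ0, hΦ0, rfl⟩ := mem_image.1 hρ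
  obtain ⟨N, hN, hN'⟩ := h Φ0 hΦ0
  refine le_trans (card_le_card_of_injOn (t := N.image some) (fun ρ => ρ v) ?_ ?_)
    (le_trans card_image_le hN)
  · intro ρ hρ
    rw [mem_coe, mem_filter] at hρ
    obtain ⟨Φ, hΦ, rfl⟩ := mem_image.1 hρ.1
    have h2 := hρ.2
    rw [hπ, res_eq_iff] at h2
    rw [mem_coe]
    exact mem_image.2 ⟨Φ v, hN' Φ hΦ h2, by simp [res]⟩
  · intro ρ hρ ρ' hρ' hv
    rw [mem_coe, mem_filter] at hρ hρ'
    obtain ⟨Φ, hΦ, rfl⟩ := mem_image.1 hρ.1
    obtain ⟨Ψ, hΨ, rfl⟩ := mem_image.1 hρ'.1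
    have h2 := hρ.2
    have h3 := hρ'.2
    rw [hπ, res_eq_iff] at h2 h3
    rw [res_eq_iff]
    intro x hx
    rcases mem_insert.1 hx with rfl | hx
    · simpa [res] using hv
    · rw [h2 x hx, h3 x hx]

lemma rules_count (Adj : W → W → Prop) [DecidableRel Adj] (A : V → V → Prop) (t K : ℕ)
    (ht : 1 ≤ t) (c : V → Finset W) (h2 : ∀ v, (c v).card ≤ K * t ^ 2)
    (h1 : ∀ v u, ((c v).filter (fun w => Adj w u)).card ≤ K * t ^ 1)
    (h0 : ∀ v u u', u ≠ u' → ((c v).filter (fun w => Adj w u ∧ Adj w u')).card ≤ K * t ^ 0)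
    (F : Finset (V → W)) (hc : ∀ Φ ∈ F, ∀ v, Φ v ∈ c v)
    (hA : ∀ Φ ∈ F, ∀ x y, A x y → Adj (Φ x) (Φ y))
    (hI : ∀ Φ ∈ F, ∀ v u u', A v u → A v u' → u ≠ u' → Φ u ≠ Φ u') :
    Rules A (fun S c => (F.image (res S)).card ≤ K ^ S.card * t ^ c) := by
  have step : ∀ (S : Finset V) (v : V) (c d : ℕ),
      (∀ Φ0 ∈ F, ∃ N : Finset W, N.card ≤ K * t ^ d ∧ ∀ Φ ∈ F, (∀ x ∈ S, Φ x = Φ0 x) → Φ v ∈ N) →
      (F.image (res S)).card ≤ K ^ S.card * t ^ c →
      (F.image (res (insert v S))).card ≤ K ^ (insert v S).card * t ^ (c + d) := by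
    intro S v c d h hb
    by_cases hv : v ∈ S
    · rw [insert_eq_of_mem hv]
      exact hb.trans (Nat.mul_le_mul_left _ (Nat.pow_le_pow_right ht (by omega)))
    refine le_trans (res_insert F S v _ h) ?_
    rw [card_insert_of_notMem hv]
    calc K * t ^ d * (F.image (res S)).card ≤ K * t ^ d * (K ^ S.card * t ^ c) :=
          Nat.mul_le_mul_left _ hb
      _ = _ := by ring
  constructor
  · intro S c c' h hc
    exact le_trans h (Nat.mul_le_mul_left _ (Nat.pow_le_pow_right ht hc))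
  · intro S c v h
    exact step S v c 2 (fun Φ0 _ => ⟨_, h2 v, fun Φ hΦ _ => hc Φ hΦ v⟩) h
  · intro S c v u hu hvu h
    exact step S v c 1 (fun Φ0 _ => ⟨_, h1 v (Φ0 u), fun Φ hΦ hag =>
      mem_filter.2 ⟨hc Φ hΦ v, hag u hu ▸ hA Φ hΦ v u hvu⟩⟩) h
  · intro S c v u u' hu hu' hne hvu hvu' h
    exact step S v c 0 (fun Φ0 hΦ0 => ⟨_, h0 v (Φ0 u) (Φ0 u') (hI Φ0 hΦ0 v u u' hvu hvu' hne),
      fun Φ hΦ hag =>
      mem_filter.2 ⟨hc Φ hΦ v, hag u hu ▸ hA Φ hΦ v u hvu, hag u' hu' ▸ hA Φ hΦ v u' hvu'⟩⟩) h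

end

lemma exists_kernel {V W : Type} (Φ : V → W) :
    ∃ κ : V → V, (∀ x, Φ (κ x) = Φ x) ∧ ∀ x y, Φ x = Φ y → κ x = κ y := by
  have : ∀ w : Set.range Φ, ∃ y, Φ y = w := fun w => w.2
  choose c hc using this
  refine ⟨fun x => c ⟨Φ x, x, rfl⟩, fun x => hc _, fun x y h => ?_⟩
  exact congrArg c (Subtype.ext h)

/-- the constant in the counting lemma -/
def cst (H : BG) (K : ℕ) : ℕ := numV H ^ numV H * K ^ numV H

open Classical in
/-- Homomorphisms with prescribed candidate sets into a graph of bounded codegree. -/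
theorem hom_le (H : BG) {α β : Type} [Fintype α] [Fintype β] [DecidableEq α] [DecidableEq β]
    (r : α → β → Prop) (c : H.V1 → Finset α) (t K : ℕ) (ht : 1 ≤ t) (hK : 1 ≤ K)
    (a2 : ∀ x, (c x).card ≤ K * t ^ 2) (b2 : Fintype.card β ≤ K * t ^ 2)
    (a1 : ∀ x b, ((c x).filter (fun a => r a b)).card ≤ K * t)
    (b1 : ∀ a, (univ.filter (fun b => r a b)).card ≤ K * t)
    (a0 : ∀ x b b', b ≠ b' → ((c x).filter (fun a => r a b ∧ r a b')).card ≤ K)
    (b0 : ∀ a a', a ≠ a' → (univ.filter (fun b => r a b ∧ r a' b)).card ≤ K) :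
    ((univ.filter fun φ : (H.V1 → α) × (H.V2 → β) =>
      (∀ e ∈ H.E, r (φ.1 e.1) (φ.2 e.2)) ∧ ∀ x, φ.1 x ∈ c x).card : ℝ) ≤
        cst H K * (t : ℝ) ^ sVal H := by
  let V := H.V1 ⊕ H.V2
  let Adj : (α ⊕ β) → (α ⊕ β) → Prop := fun w w' => (∃ a b, w = .inl a ∧ w' = .inr b ∧ r a b) ∨
    ∃ a b, w' = .inl a ∧ w = .inr b ∧ r a b
  let cd : V → Finset (α ⊕ β) := Sum.elim (fun x => (c x).image .inl) fun _ => univ.image .inr
  have hV : Fintype.card V = numV H := by simp only [V, Fintype.card_sum, numV, Nat.add_left_cancel_iff]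
  let F : (V → V) → Finset (V → (α ⊕ β)) := fun κ => univ.filter (fun Φ =>
    (∀ e ∈ H.E, Adj (Φ (Sum.inl e.1)) (Φ (Sum.inr e.2))) ∧ (∀ x, Φ (κ x) = Φ x) ∧
      (∀ x y, Φ x = Φ y → κ x = κ y) ∧ (∀ x, (κ x).isLeft = x.isLeft) ∧ ∀ x, Φ x ∈ cd x)
  have hsym : ∀ a b, Adj a b → Adj b a := fun a b h => h.symm
  have ht' : (1 : ℝ) ≤ t := by exact_mod_cast ht
  have hfl : ∀ {γ : Type} (s : Finset γ) (f : γ → (α ⊕ β)) (p : (α ⊕ β) → Prop) [DecidablePred p],
      ((s.image f).filter p).card ≤ (s.filter fun a => p (f a)).card := by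
    intro γ s f p _
    rw [filter_image]
    exact card_image_le
  have hF : ∀ κ, ((F κ).card : ℝ) ≤ ((K ^ numV H : ℕ) : ℝ) * (t : ℝ) ^ sVal H := by
    intro κ
    rcases (F κ).eq_empty_or_nonempty with h | ⟨Φ1, hΦ1⟩
    · rw [h]; simp only [card_empty, Nat.cast_zero]; positivity
    have hκ : ∀ x, (κ x).isLeft = x.isLeft := (mem_filter.1 hΦ1).2.2.2.2.1
    let A : V → V → Prop := fun x y => ∃ e ∈ H.E, (x = κ (Sum.inl e.1) ∧ y = κ (Sum.inr e.2)) ∨
      (y = κ (Sum.inl e.1) ∧ x = κ (Sum.inr e.2))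
    have R := rules_count Adj A t K ht cd (by
        rintro (x | x)
        · exact card_image_le.trans (a2 x)
        · exact card_image_le.trans b2) (by
        rintro (x | x) (u | u) <;> refine (hfl _ _ _).trans ?_
        · simp only [Adj, exists_and_left, Sum.inl.injEq, reduceCtorEq, false_and, exists_false, and_false, or_self, filter_false, card_empty, pow_one, zero_le]
        · simpa only [Adj, exists_and_left, Sum.inl.injEq, Sum.inr.injEq, exists_eq_left', reduceCtorEq, false_and, exists_false, and_self, or_false, pow_one] using a1 x u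
        · simpa only [Adj, exists_and_left, reduceCtorEq, false_and, exists_false, and_self, Sum.inl.injEq, Sum.inr.injEq, exists_eq_left', false_or, pow_one] using b1 u
        · simp only [Adj, exists_and_left, reduceCtorEq, Sum.inr.injEq, exists_eq_left', false_and, exists_false, or_self, filter_false, card_empty, pow_one, zero_le]) (by
        rintro (x | x) (u | u) (u' | u') h <;> refine (hfl _ _ _).trans ?_
        · simp only [Adj, exists_and_left, Sum.inl.injEq, reduceCtorEq, false_and, exists_false, and_false, or_self, and_self, filter_false, card_empty, pow_zero, mul_one, zero_le]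
        · simp only [Adj, exists_and_left, Sum.inl.injEq, reduceCtorEq, false_and, exists_false, and_false, or_self, Sum.inr.injEq, exists_eq_left', and_self, or_false, filter_false, card_empty, pow_zero, mul_one, zero_le]
        · simp only [Adj, exists_and_left, Sum.inl.injEq, Sum.inr.injEq, exists_eq_left', reduceCtorEq, false_and, exists_false, and_self, or_false, and_false, or_self, filter_false, card_empty, pow_zero, mul_one, zero_le]
        · simpa only [Adj, exists_and_left, Sum.inl.injEq, Sum.inr.injEq, exists_eq_left', reduceCtorEq, false_and, exists_false, and_self, or_false, pow_zero, mul_one] using a0 x u u' (by simpa using h)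
        · simpa only [Adj, exists_and_left, reduceCtorEq, false_and, exists_false, and_self, Sum.inl.injEq, Sum.inr.injEq, exists_eq_left', false_or, pow_zero, mul_one] using b0 u u' (by simpa using h)
        · simp only [Adj, exists_and_left, reduceCtorEq, false_and, exists_false, and_self, Sum.inl.injEq, Sum.inr.injEq, exists_eq_left', false_or, or_self, and_false, filter_false, card_empty, pow_zero, mul_one, zero_le]
        · simp only [Adj, exists_and_left, reduceCtorEq, Sum.inr.injEq, exists_eq_left', false_and, exists_false, or_self, and_self, Sum.inl.injEq, false_or, filter_false, card_empty, pow_zero, mul_one, zero_le]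
        · simp only [Adj, exists_and_left, reduceCtorEq, Sum.inr.injEq, exists_eq_left', false_and, exists_false, or_self, and_self, filter_false, card_empty, pow_zero, mul_one, zero_le]) (F κ) (fun Φ hΦ => (mem_filter.1 hΦ).2.2.2.2.2) (by
        intro Φ hΦ x y hxy
        obtain ⟨h1, h2, -, -⟩ := (mem_filter.1 hΦ).2
        obtain ⟨e, he, ⟨rfl, rfl⟩ | ⟨rfl, rfl⟩⟩ := hxy
        · rw [h2, h2]; exact h1 e he
        · rw [h2, h2]; exact hsym _ _ (h1 e he)) (by
        intro Φ hΦ v u u' hu hu' hne heq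
        obtain ⟨-, h2, h3, -⟩ := (mem_filter.1 hΦ).2
        have a1 : ∃ a, u = κ a := by
          obtain ⟨e, -, ⟨-, h⟩ | ⟨h, -⟩⟩ := hu <;> exact ⟨_, h⟩
        have a2 : ∃ a, u' = κ a := by
          obtain ⟨e, -, ⟨-, h⟩ | ⟨h, -⟩⟩ := hu' <;> exact ⟨_, h⟩
        obtain ⟨a, rfl⟩ := a1
        obtain ⟨b, rfl⟩ := a2
        rw [h2, h2] at heq
        exact hne (h3 a b heq))
    obtain ⟨c, φ, hB, hc⟩ := (order_lemma (side := Sum.isLeft) R
      (by rintro x y ⟨e, he, h | h⟩
          · exact ⟨e, he, Or.inr h⟩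
          · exact ⟨e, he, Or.inl h⟩)
      (by rintro x y ⟨e, he, ⟨rfl, rfl⟩ | ⟨rfl, rfl⟩⟩ <;> simp [hκ]) (univ.image κ)).2.2
    replace hB := hB ∅ 0 Subset.rfl (by
      simp only [card_empty, pow_zero, mul_one]
      rw [card_le_one]
      intro a ha b hb
      obtain ⟨Φ, -, rfl⟩ := mem_image.1 ha
      obtain ⟨Ψ, -, rfl⟩ := mem_image.1 hb
      rw [res_eq_iff]
      simp)
    rw [empty_union, zero_add] at hB
    have hinj : ((F κ).image (res (univ.image κ))).card = (F κ).card := by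
      apply card_image_of_injOn
      intro Φ hΦ Ψ hΨ h
      rw [res_eq_iff] at h
      funext x
      rw [← (mem_filter.1 (mem_coe.1 hΦ)).2.2.1 x, ← (mem_filter.1 (mem_coe.1 hΨ)).2.2.1 x]
      exact h _ (mem_image_of_mem _ (mem_univ _))
    have hFV : FV A Sum.isLeft (univ.image κ) φ ≤ sVal H := by
      refine le_trans ?_ (fVal_le_sVal H ((φ ∘ κ) ∘ Sum.inl) ((φ ∘ κ) ∘ Sum.inr))
      unfold FV fVal
      have e1 : ((univ.image κ).image φ).card ≤ (univ.image ((φ ∘ κ) ∘ Sum.inl)).card +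
          (univ.image ((φ ∘ κ) ∘ Sum.inr)).card := by
        rw [image_image]
        exact le_trans (le_of_eq (congrArg card (image_univ_sum (φ ∘ κ)))) (card_union_le _ _)
      have e2 : (H.E.image (fun e => (((φ ∘ κ) ∘ Sum.inl) e.1, ((φ ∘ κ) ∘ Sum.inr) e.2))).card ≤
          ((edges A Sum.isLeft (univ.image κ)).image (Prod.map φ φ)).card := by
        apply card_le_card
        intro z hz
        obtain ⟨e, he, rfl⟩ := mem_image.1 hz
        refine mem_image.2 ⟨(κ (Sum.inl e.1), κ (Sum.inr e.2)), mem_edges.2 ⟨?_, ?_, ?_, ?_⟩, rfl⟩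
        · exact mem_image_of_mem _ (mem_univ _)
        · exact mem_image_of_mem _ (mem_univ _)
        · exact ⟨e, he, Or.inl ⟨rfl, rfl⟩⟩
        · simp [hκ]
      zify at e1 e2
      linarith only [e1, e2]
    have hB' : (F κ).card ≤ K ^ numV H * t ^ c := by
      rw [← hinj]
      refine le_trans hB (Nat.mul_le_mul_right _ (Nat.pow_le_pow_right hK ?_))
      rw [← hV]; exact card_le_univ _
    have hpow : ((t : ℝ)) ^ c ≤ (t : ℝ) ^ sVal H := by
      rw [← zpow_natCast]
      exact zpow_le_zpow_right₀ ht' (by linarith only [hc, hFV])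
    calc ((F κ).card : ℝ) ≤ ((K ^ numV H * t ^ c : ℕ) : ℝ) := by exact_mod_cast hB'
      _ = ((K ^ numV H : ℕ) : ℝ) * (t : ℝ) ^ c := by push_cast; ring
      _ ≤ _ := mul_le_mul_of_nonneg_left hpow (by positivity)
  have hcov : (univ.filter fun φ : (H.V1 → α) × (H.V2 → β) =>
      (∀ e ∈ H.E, r (φ.1 e.1) (φ.2 e.2)) ∧ ∀ x, φ.1 x ∈ c x).card ≤ ∑ κ : V → V, (F κ).card := by
    refine le_trans (card_le_card_of_injOn (t := univ.biUnion F)
      (fun φ => (Sum.map φ.1 φ.2 : V → (α ⊕ β))) ?_ ?_) card_biUnion_le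
    · intro φ hφ
      obtain ⟨hφ, hc⟩ := (mem_filter.1 (mem_coe.1 hφ)).2
      obtain ⟨κ, h1, h2⟩ := exists_kernel (Sum.map φ.1 φ.2 : V → (α ⊕ β))
      rw [mem_coe, mem_biUnion]
      refine ⟨κ, mem_univ _, mem_filter.2 ⟨mem_univ _, fun e he => Or.inl ⟨_, _, rfl, rfl, hφ e he⟩,
        h1, h2, fun x => ?_, ?_⟩⟩
      · have := congrArg Sum.isLeft (h1 x)
        simpa using this
      · rintro (x | x)
        · exact mem_image_of_mem _ (hc x)
        · exact mem_image_of_mem _ (mem_univ _)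
    · intro φ _ ψ _ h
      refine Prod.ext ?_ ?_
      · funext x
        simpa using congrFun h (Sum.inl x)
      · funext x
        simpa using congrFun h (Sum.inr x)
  calc _ ≤ ∑ κ : V → V, ((F κ).card : ℝ) := by exact_mod_cast hcov
    _ ≤ ∑ _κ : V → V, ((K ^ numV H : ℕ) : ℝ) * (t : ℝ) ^ sVal H :=
        sum_le_sum fun κ _ => hF κ
    _ = _ := by
        rw [sum_const, card_univ, Fintype.card_fun, hV, nsmul_eq_mul, cst]
        push_cast; ring

abbrev mkBG {α β : Type} [Fintype α] [Fintype β] [DecidableEq α] [DecidableEq β]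
    (E : Finset (α × β)) : BG where
  V1 := α
  V2 := β
  E := E

/-- common neighbourhood -/
def nb {α β : Type} [Fintype α] [DecidableEq α] [DecidableEq β] (E : Finset (α × β)) (y y' : β) :
    Finset α := univ.filter (fun x => (x, y) ∈ E ∧ (x, y') ∈ E)

lemma mem_nb {α β : Type} [Fintype α] [DecidableEq α] [DecidableEq β] {E : Finset (α × β)}
    {y y' : β} {x : α} : x ∈ nb E y y' ↔ (x, y) ∈ E ∧ (x, y') ∈ E := by simp only [nb, mem_filter, mem_univ, true_and]

section
open Matrix
variable {α β : Type} [Fintype α] [Fintype β] [DecidableEq α] [DecidableEq β]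

def bi (E : Finset (α × β)) : Matrix α β ℝ := fun x y => if (x, y) ∈ E then 1 else 0

lemma adjMat_eq (E : Finset (α × β)) : adjMat (mkBG E) = fromBlocks 0 (bi E) (bi E)ᵀ 0 := by
  ext i j
  rcases i with i | i <;> rcases j with j | j <;> rfl

omit [Fintype β] in
lemma gram_eq (E : Finset (α × β)) (y y' : β) : ((bi E)ᵀ * bi E) y y' = (nb E y y').card := by
  rw [mul_apply, nb, card_filter]
  push_cast
  refine sum_congr rfl fun x _ => ?_
  simp only [transpose_apply, bi]
  by_cases h1 : (x, y) ∈ E <;> by_cases h2 : (x, y') ∈ E <;> simp [h1, h2]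

lemma eval_charpoly_adj (E : Finset (α × β)) (x : ℝ) (hx : x ≠ 0) :
    (adjMat (mkBG E)).charpoly.eval x =
      x ^ Fintype.card α * (x • (1 : Matrix β β ℝ) - x⁻¹ • ((bi E)ᵀ * bi E)).det := by
  rw [eval_charpoly, adjMat_eq]
  have h1 : (scalar (α ⊕ β) x - fromBlocks 0 (bi E) (bi E)ᵀ 0 : Matrix (α ⊕ β) (α ⊕ β) ℝ) =
      fromBlocks (x • (1 : Matrix α α ℝ)) (-bi E) (-(bi E)ᵀ) (x • (1 : Matrix β β ℝ)) := by
    ext i j
    rcases i with i | i <;> rcases j with j | j <;> simp [diagonal_apply, one_apply]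
  let _ : Invertible (x • (1 : Matrix α α ℝ)) :=
    ⟨x⁻¹ • (1 : Matrix α α ℝ), by simp [smul_smul, hx], by simp [smul_smul, hx]⟩
  have h2 : ⅟(x • (1 : Matrix α α ℝ)) = x⁻¹ • (1 : Matrix α α ℝ) := rfl
  rw [h1, det_fromBlocks₁₁, h2, det_smul, det_one, mul_one]
  congr 2
  simp

theorem spec_eq_of_codeg (E E' : Finset (α × β))
    (h : ∀ y y', (nb E y y').card = (nb E' y y').card) : spec (mkBG E) = spec (mkBG E') := by
  have hg : (bi E)ᵀ * bi E = (bi E')ᵀ * bi E' := by
    ext y y'
    rw [gram_eq, gram_eq, h]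
  unfold spec
  congr 1
  apply Polynomial.eq_of_infinite_eval_eq
  refine Set.Infinite.mono (s := {0}ᶜ) ?_ (Set.Finite.infinite_compl (Set.finite_singleton 0))
  intro x hx
  have hx' : x ≠ 0 := hx
  change _ = _
  rw [eval_charpoly_adj E x hx', eval_charpoly_adj E' x hx', hg]
end

lemma homCount_K2 (G : BG) : homCount K2 G = G.E.card := by
  rw [homCount_eq]
  refine card_bij (fun φ _ => (φ.1 (), φ.2 ())) ?_ ?_ ?_
  · intro φ hφ
    exact mem_homSet.1 hφ ((), ()) (mem_univ _)
  · intro φ _ ψ _ h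
    simp only [Prod.mk.injEq] at h
    exact Prod.ext (funext fun _ => h.1) (funext fun _ => h.2)
  · intro e he
    exact ⟨(fun _ => e.1, fun _ => e.2), mem_homSet.2 fun _ _ => he, rfl⟩

end Pool.Agent.MP_8fd344_co.Reg

end

-- part MP_8fd344_co.Reg.Net
section

/-! Coset graphs of families of additive maps; a regulus and its opposite regulus. -/

namespace Pool.Agent.MP_8fd344_co.Reg

open Finset

set_option linter.unusedSectionVars false

section
variable {I X Y : Type} [Fintype I] [Fintype X] [Fintype Y] [DecidableEq I] [DecidableEq X]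
  [DecidableEq Y] [AddCommGroup X] [AddCommGroup Y]

def netE (l : I → X →+ Y) : Finset ((I × Y) × X) := univ.filter fun e => l e.1.1 e.2 = e.1.2

lemma mem_netE {l : I → X →+ Y} {a : I × Y} {x : X} : (a, x) ∈ netE l ↔ l a.1 x = a.2 := by
  simp only [netE, mem_filter, mem_univ, true_and]

lemma card_le_ker (f : X →+ Y) :
    Fintype.card X ≤ (univ.filter fun x => f x = 0).card * Fintype.card Y := by
  refine (card_le_mul_card_image (f := f) univ _ fun y hy => ?_).trans
    (Nat.mul_le_mul_left _ (card_le_univ _))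
  obtain ⟨x, -, rfl⟩ := mem_image.1 hy
  exact card_le_card_of_injOn (fun z => z - x) (fun z hz => by
    simp only [coe_filter, mem_univ, true_and, Set.mem_ofPred_eq] at hz ⊢
    rw [map_sub, hz, sub_self]) fun a _ b _ h => sub_left_injective h

lemma card_fib (f : X →+ Y) (hf : Function.Surjective f) (y : Y) :
    (univ.filter fun x => f x = y).card * Fintype.card Y = Fintype.card X := by
  have h : ∀ y y' : Y, (univ.filter fun x => f x = y).card ≤ (univ.filter fun x => f x = y').card := by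
    intro y y'
    obtain ⟨z, hz⟩ := hf (y' - y)
    exact card_le_card_of_injOn (fun x => x + z) (fun x hx => by
      simp only [coe_filter, mem_univ, true_and, Set.mem_ofPred_eq] at hx ⊢
      rw [map_add, hx, hz, add_sub_cancel]) fun a _ b _ h => add_left_injective z h
  rw [← card_univ (α := X), card_eq_sum_card_fiberwise (f := f) (s := univ) (t := univ)
    fun _ _ => mem_univ _,
    sum_congr rfl fun y' _ => le_antisymm (h y' y) (h y y')]
  simp only [mul_comm, sum_const, card_univ, smul_eq_mul]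

lemma net_codeg (l : I → X →+ Y) (x x' : X) :
    (nb (netE l) x x').card = (univ.filter fun i => l i (x - x') = 0).card := by
  refine card_bij (fun a _ => a.1) ?_ ?_ ?_
  · intro a ha
    simp only [mem_nb, mem_netE] at ha
    simp only [map_sub, mem_filter, mem_univ, ha.1, ha.2, sub_self, and_self]
  · intro a ha b hb h
    simp only [mem_nb, mem_netE] at ha hb
    exact Prod.ext h (by rw [← ha.1, ← hb.1, h])
  · intro i hi
    simp only [mem_filter, mem_univ, true_and, map_sub, sub_eq_zero] at hi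
    exact ⟨(i, l i x), by simp [mem_nb, mem_netE, hi], rfl⟩

lemma net_reg (l : I → X →+ Y) (hl : ∀ i, Function.Surjective (l i)) {q : ℕ}
    (hI : Fintype.card I = q) (hY : Fintype.card Y = q) (hX : Fintype.card X = q * q) :
    IsRegularOf (mkBG (netE l)) q := by
  constructor
  · intro a
    have := card_fib (l a.1) (hl a.1) a.2
    rw [hY, hX] at this
    simp only [mem_netE]
    exact Nat.eq_of_mul_eq_mul_right (hY ▸ Fintype.card_pos) this
  · intro x
    have := net_codeg l x x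
    simp only [sub_self, map_zero, filter_true, card_univ, nb, and_self] at this
    exact this.trans hI

lemma net_conn (l : I → X →+ Y) (hl : ∀ i, Function.Surjective (l i))
    (h : ∀ x, ∃ i j z, l i z = 0 ∧ l j (x - z) = 0) : (toGraph (mkBG (netE l))).Connected := by
  have adj : ∀ (i : I) (x : X), (toGraph (mkBG (netE l))).Adj (.inl (i, l i x)) (.inr x) := by
    intro i x
    rw [toGraph, SimpleGraph.fromRel_adj]
    exact ⟨by simp, Or.inl ⟨((i, l i x), x), mem_netE.2 rfl, rfl, rfl⟩⟩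
  have two : ∀ (i : I) (x z : X), l i x = l i z →
      (toGraph (mkBG (netE l))).Reachable (.inr x) (.inr z) := fun i x z e =>
    (adj i x).symm.reachable.trans (e ▸ (adj i z).reachable)
  have h0 : ∀ x : X, (toGraph (mkBG (netE l))).Reachable (.inr x) (.inr 0) := by
    intro x
    obtain ⟨i, j, z, h1, h2⟩ := h x
    exact (two j x z (by rwa [map_sub, sub_eq_zero] at h2)).trans (two i z 0 (by simp [h1]))
  refine (SimpleGraph.connected_iff_exists_forall_reachable _).2 ⟨.inr 0, ?_⟩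
  rintro (⟨i, y⟩ | x)
  · obtain ⟨x, rfl⟩ := hl i y
    exact ((adj i x).reachable.trans (h0 x)).symm
  · exact (h0 x).symm

lemma net_lower0 (l : I → X →+ Y) (H : BG) :
    (Fintype.card I * Fintype.card Y) ^ Fintype.card H.V1 * Fintype.card X ^ Fintype.card H.V2 ≤
      homCount H (mkBG (netE l)) * Fintype.card Y ^ H.E.card := by
  classical
  let f : (H.V1 → I) → ((H.V1 → Y) × (H.V2 → X)) →+ (H.E → Y) := fun i =>
    AddMonoidHom.mk' (fun φ e => l (i e.1.1) (φ.2 e.1.2) - φ.1 e.1.1) fun a b => by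
      funext e
      simp only [Prod.snd_add, Prod.fst_add, Pi.add_apply, map_add]
      abel
  have h1 : (univ.sigma fun i => univ.filter fun φ => f i φ = 0).card ≤
      homCount H (mkBG (netE l)) := by
    rw [homCount_eq]
    refine card_le_card_of_injOn (fun z => (fun a => (z.1 a, z.2.1 a), z.2.2)) ?_ ?_
    · intro z hz
      rw [mem_coe, mem_homSet]
      intro e he
      exact mem_netE.2 (sub_eq_zero.1 (congrFun (mem_filter.1 (mem_sigma.1 hz).2).2 ⟨e, he⟩))
    · rintro ⟨i, y, x⟩ - ⟨i', y', x'⟩ - h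
      simp only [Prod.mk.injEq, funext_iff] at h
      obtain rfl : i = i' := funext fun a => (h.1 a).1
      obtain rfl : y = y' := funext fun a => (h.1 a).2
      obtain rfl : x = x' := funext h.2
      rfl
  refine le_trans ?_ (Nat.mul_le_mul_right _ h1)
  rw [card_sigma, sum_mul]
  refine le_trans (le_of_eq ?_) (sum_le_sum fun i _ => by simpa only [Fintype.card_prod, Fintype.card_pi, prod_const, card_univ, univ_eq_attach, card_attach] using card_le_ker (f i))
  simp only [mul_pow, mul_assoc, sum_const, card_univ, Fintype.card_pi, prod_const, smul_eq_mul]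

lemma net_lower (l : I → X →+ Y) {q : ℕ} (hI : Fintype.card I = q) (hY : Fintype.card Y = q)
    (hX : Fintype.card X = q * q) (H : BG) :
    (q : ℝ) ^ sVal H ≤ homCount H (mkBG (netE l)) := by
  have hne : {m : ℕ | ∃ H' : BG, IsCollapse H H' ∧
      m = H'.E.card + 2 * (numV H - numV H')}.Nonempty := ⟨_, H, isCollapse_refl H, rfl⟩
  obtain ⟨H', hc, hm⟩ := Nat.sInf_mem hne
  have h2 := numV_le_of_collapse hc
  have hq : (0 : ℝ) < q := by exact_mod_cast hY ▸ Fintype.card_pos
  have h3 : sVal H = ((2 * numV H' : ℕ) : ℤ) - (H'.E.card : ℕ) := by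
    unfold sVal rVal
    rw [hm]
    push_cast [h2]
    ring
  have h4 := net_lower0 l H'
  rw [hI, hY, hX, ← pow_add, ← sq, ← pow_mul] at h4
  rw [h3, zpow_sub₀ hq.ne', zpow_natCast, zpow_natCast, div_le_iff₀ (by positivity)]
  exact_mod_cast h4.trans (Nat.mul_le_mul_right _ (homCount_le_of_collapse hc _))

end

section
variable {F : Type} [Field F] [Fintype F] [DecidableEq F]

lemma roots_le (c0 c1 c2 c3 c4 c8 : F) (h : ¬ (c0 = 0 ∧ c1 = 0 ∧ c2 = 0 ∧ c3 = 0 ∧ c4 = 0 ∧ c8 = 0))
    (s : Finset F) (hs : ∀ t ∈ s, c0 + c1 * t + c2 * t ^ 2 + c3 * t ^ 3 + c4 * t ^ 4 + c8 * t ^ 8 = 0) :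
    s.card ≤ 8 := by
  open Polynomial in
  let P : F[X] := C c0 + C c1 * X + C c2 * X ^ 2 + C c3 * X ^ 3 + C c4 * X ^ 4 + C c8 * X ^ 8
  have hP : P ≠ 0 := by
    intro e
    have k := fun n => congrArg (fun Q => Polynomial.coeff Q n) e
    exact h ⟨by simpa [P] using k 0, by simpa [P, Polynomial.coeff_X_pow] using k 1,
      by simpa [P, Polynomial.coeff_X_pow, Polynomial.coeff_X] using k 2,
      by simpa [P, Polynomial.coeff_X_pow, Polynomial.coeff_X] using k 3,
      by simpa [P, Polynomial.coeff_X_pow, Polynomial.coeff_X] using k 4,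
      by simpa [P, Polynomial.coeff_X_pow, Polynomial.coeff_X] using k 8⟩
  refine (Polynomial.card_le_degree_of_subset_roots (p := P) fun t ht => ?_).trans
    (by unfold P; compute_degree)
  rw [Polynomial.mem_roots hP]
  simpa only [P, IsRoot.def, eval_add, eval_C, eval_mul, eval_X, eval_pow] using hs t ht

/-- representatives of the projective line -/
def vec : Option F → F × F
  | none => (0, 1)
  | some x => (1, x)

lemma vec_eq {o o' : Option F} (h : (vec o).1 * (vec o').2 = (vec o').1 * (vec o).2) : o = o' := by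
  rcases o with _ | x <;> rcases o' with _ | y <;> simp_all [vec]

lemma vec_ne (o : Option F) : ¬ ((vec o).1 = 0 ∧ (vec o).2 = 0) := by
  rcases o with _ | x <;> simp [vec]

lemma row_le {a b : F} (h : ¬ (a = 0 ∧ b = 0)) {o o' : Option F}
    (h1 : a * (vec o).1 + b * (vec o).2 = 0) (h2 : a * (vec o').1 + b * (vec o').2 = 0) :
    o = o' := by
  refine vec_eq (sub_eq_zero.1 ?_)
  by_contra hn
  exact h ⟨(mul_eq_zero.1 (by linear_combination (vec o').2 * h1 - (vec o).2 * h2)).resolve_right hn,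
    (mul_eq_zero.1 (by linear_combination (vec o).1 * h2 - (vec o').1 * h1)).resolve_right hn⟩

lemma ker_count (a b c d : F) :
    (univ.filter fun o : Option F => a * (vec o).1 + b * (vec o).2 = 0 ∧
      c * (vec o).1 + d * (vec o).2 = 0).card =
      if a = 0 ∧ b = 0 ∧ c = 0 ∧ d = 0 then Fintype.card (Option F)
      else if a * d = b * c then 1 else 0 := by
  have ex : ∀ a b : F, ∃ o : Option F, a * (vec o).1 + b * (vec o).2 = 0 := by
    intro a b
    by_cases hb : b = 0
    · exact ⟨none, by simp [vec, hb]⟩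
    · exact ⟨some (-a / b), by simp only [vec]; field_simp; ring⟩
  split_ifs with h0 h1
  · simp [h0]
  · rw [card_eq_one]
    by_cases h : a = 0 ∧ b = 0
    · obtain ⟨o, ho⟩ := ex c d
      exact ⟨o, eq_singleton_iff_unique_mem.2 ⟨by simp only [h, zero_mul, add_zero, true_and, mem_filter, mem_univ, ho, and_self], fun o' h' =>
        row_le (by tauto) (mem_filter.1 h').2.2 ho⟩⟩
    · obtain ⟨o, ho⟩ := ex a b
      refine ⟨o, eq_singleton_iff_unique_mem.2 ⟨mem_filter.2 ⟨mem_univ _, ho, ?_⟩, fun o' h' =>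
        row_le h (mem_filter.1 h').2.1 ho⟩⟩
      by_contra hn
      exact h ⟨(mul_eq_zero.1 (by linear_combination c * ho + (vec o).2 * h1)).resolve_right hn,
        (mul_eq_zero.1 (by linear_combination d * ho - (vec o).1 * h1)).resolve_right hn⟩
  · rw [card_eq_zero, filter_eq_empty_iff]
    rintro o - ⟨e1, e2⟩
    exact vec_ne o ⟨(mul_eq_zero.1 (by linear_combination d * e1 - b * e2)).resolve_left
      (sub_ne_zero.2 h1), (mul_eq_zero.1 (by linear_combination a * e2 - c * e1)).resolve_left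
      (sub_ne_zero.2 h1)⟩

variable [CharP F 2]

/-- an additive bijection of the plane -/
def sg (k : F) : F × F →+ F × F :=
  AddMonoidHom.mk' (fun r => (r.1 + k * (r.2 + k * r.1 ^ 2) ^ 2, r.2 + k * r.1 ^ 2)) fun a b => by
    simp only [Prod.fst_add, Prod.snd_add, CharTwo.add_sq, mul_pow, Prod.mk_add_mk, Prod.mk.injEq]
    constructor <;> ring

lemma sg_apply (k : F) (r : F × F) :
    sg k r = (r.1 + k * (r.2 + k * r.1 ^ 2) ^ 2, r.2 + k * r.1 ^ 2) := rfl

lemma sg_inv (k : F) (r : F × F) : r = ((sg k r).1 + k * (sg k r).2 ^ 2,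
    (sg k r).2 + k * ((sg k r).1 + k * (sg k r).2 ^ 2) ^ 2) := by
  simp [sg_apply, add_assoc, CharTwo.add_self_eq_zero]

lemma sg_surj (k : F) (s : F × F) : ∃ r, sg k r = s :=
  ⟨(s.1 + k * s.2 ^ 2, s.2 + k * (s.1 + k * s.2 ^ 2) ^ 2), by
    simp [sg_apply, add_assoc, CharTwo.add_self_eq_zero]⟩

/-- the linear form of the direction `o` after the twist `k` -/
def fm (k : F) (o : Option F) : F × F →+ F :=
  AddMonoidHom.mk' (fun r => (sg k r).1 * (vec o).1 + (sg k r).2 * (vec o).2) fun a b => by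
    simp only [map_add, Prod.fst_add, Prod.snd_add]
    ring

lemma fm_apply (k : F) (o : Option F) (r : F × F) :
    fm k o r = (sg k r).1 * (vec o).1 + (sg k r).2 * (vec o).2 := rfl

lemma fm_zero (o : Option F) (r : F × F) : fm 0 o r = r.1 * (vec o).1 + r.2 * (vec o).2 := by
  simp only [fm_apply, sg_apply, zero_mul, add_zero, Prod.mk.eta]

lemma fm_surj (k : F) (o : Option F) (w : F) : ∃ r, fm k o r = w := by
  rcases o with _ | x
  · obtain ⟨r, h⟩ := sg_surj k (0, w)
    exact ⟨r, by simp [fm_apply, h, vec]⟩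
  · obtain ⟨r, h⟩ := sg_surj k (w, 0)
    exact ⟨r, by simp [fm_apply, h, vec]⟩

lemma twist_le (o : Option F) (d : F × F) (hd : d ≠ 0) :
    (univ.filter fun k => fm k o d = 0).card ≤ 8 := by
  refine roots_le (d.1 * (vec o).1 + d.2 * (vec o).2) (d.2 ^ 2 * (vec o).1 + d.1 ^ 2 * (vec o).2) 0
    (d.1 ^ 4 * (vec o).1) 0 0 ?_ _ fun k hk => ?_
  · rintro ⟨h0, h1, -, h3, -⟩
    apply hd
    rcases o with _ | x <;> simp only [vec] at h0 h1 h3 <;> ext <;> simp_all
  · have := (mem_filter.1 hk).2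
    simp only [fm_apply, sg_apply, CharTwo.add_sq] at this
    linear_combination this

lemma meet_le {k k' : F} {o o' : Option F} (h : ¬ (k = k' ∧ o = o')) :
    (univ.filter fun d => fm k o d = 0 ∧ fm k' o' d = 0).card ≤ 8 := by
  have h2 : (2 : F) = 0 := CharTwo.two_eq_zero
  obtain ⟨u1, hu1⟩ : ∃ u, u = (vec o).1 := ⟨_, rfl⟩
  obtain ⟨u2, hu2⟩ : ∃ u, u = (vec o).2 := ⟨_, rfl⟩
  obtain ⟨v1, hv1⟩ : ∃ u, u = (vec o').1 := ⟨_, rfl⟩
  obtain ⟨v2, hv2⟩ : ∃ u, u = (vec o').2 := ⟨_, rfl⟩
  let g : F → F × F := fun t => (t * u2 + k * (t * u1) ^ 2,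
    t * u1 + k * (t * u2 + k * (t * u1) ^ 2) ^ 2)
  refine le_trans (card_le_card (t := (univ.filter fun t => fm k' o' (g t) = 0).image g) ?_)
    (card_image_le.trans ?_)
  · intro d hd
    obtain ⟨e1, e2⟩ := (mem_filter.1 hd).2
    obtain ⟨t, t1, t2⟩ : ∃ t, (sg k d).1 = t * u2 ∧ (sg k d).2 = t * u1 := by
      rw [fm_apply] at e1
      rcases o with _ | x <;> simp only [vec] at hu1 hu2 e1 <;> subst hu1 hu2
      · exact ⟨(sg k d).1, by simp, by simpa using e1⟩
      · exact ⟨(sg k d).2, by linear_combination e1 - (sg k d).2 * u2 * h2, by simp⟩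
    have : g t = d := by
      rw [sg_inv k d, t1, t2]
    exact mem_image.2 ⟨t, mem_filter.2 ⟨mem_univ _, this ▸ e2⟩, this⟩
  · refine roots_le 0 (v1 * u2 + v2 * u1) ((k + k') * (v1 * u1 ^ 2 + v2 * u2 ^ 2)) 0
      (v1 * k' * (k + k') ^ 2 * u2 ^ 4 + v2 * (k + k') * k ^ 2 * u1 ^ 4)
      (v1 * k' * (k + k') ^ 2 * k ^ 4 * u1 ^ 8) ?_ _ fun t ht => ?_
    · rintro ⟨-, c1, c2, -, c4, c8⟩
      obtain rfl : o = o' := vec_eq (by
        rw [← hu1, ← hu2, ← hv1, ← hv2]; linear_combination c1 - v1 * u2 * h2)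
      have hk : k + k' ≠ 0 := fun e => h ⟨by linear_combination e - k' * h2, rfl⟩
      rw [← hu1] at hv1
      rw [← hu2] at hv2
      subst hv1 hv2
      replace c2 := (mul_eq_zero.1 c2).resolve_left hk
      rcases o with _ | x <;> simp only [vec] at hu1 hu2 <;> subst hu1
      · simp [hu2] at c2
      · have e0 : k' * k = 0 := by
          rcases eq_or_ne k' 0 with e | e
          · simp [e]
          · simp_all
        have e3 : v2 ^ 3 = 1 := by linear_combination c2 - h2
        have : v2 * (k + k') ^ 3 = 0 := by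
          linear_combination c4 - v2 * k' * (k + k') ^ 2 * e3 + v2 * (k + k') * e0
        rcases mul_eq_zero.1 this with e | e
        · simp [e] at e3
        · exact hk (pow_eq_zero_iff (by norm_num) |>.1 e)
    · have := (mem_filter.1 ht).2
      have e : ∀ A B : F, B + k * A ^ 2 + k' * A ^ 2 = B + (k + k') * A ^ 2 := fun A B => by ring
      simp only [fm_apply, sg_apply, g, ← hv1, ← hv2, e] at this
      simp only [CharTwo.add_sq (R := F) (t * u1), CharTwo.add_sq (R := F) (t * u2), mul_pow,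
        CharTwo.add_sq (R := F) (t ^ 2 * u2 ^ 2), ← pow_mul] at this
      linear_combination this

end

end Pool.Agent.MP_8fd344_co.Reg

end

-- part MP_8fd344_co.Reg.Main
section

/-! The two cospectral regular connected sequences. -/

namespace Pool.Agent.MP_8fd344_co.Reg

open Finset Filter Topology

set_option linter.unusedSectionVars false

section
variable (F : Type) [Field F] [Fintype F] [DecidableEq F] [CharP F 2]

abbrev Ix := {i : F × Option F // i.1 ≠ 0 ∨ i.2 = none}

lemma card_Ix : Fintype.card (Ix F) = Fintype.card F * Fintype.card F := by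
  rw [← Fintype.card_prod]
  refine (Fintype.card_of_bijective (f := fun z : F × F => (if h : z.1 = 0 then
    ⟨(z.2, none), Or.inr rfl⟩ else ⟨(z.1, some z.2), Or.inl h⟩ : Ix F)) ⟨?_, ?_⟩).symm
  · rintro ⟨a, b⟩ ⟨c, d⟩ h
    by_cases h1 : a = 0 <;> by_cases h2 : c = 0 <;> simp_all
  · rintro ⟨⟨k, _ | x⟩, h⟩
    · exact ⟨(0, k), by simp⟩
    · exact ⟨(k, x), by simp [show k ≠ 0 by simpa using h]⟩

/-- the reguli -/
def lam (i : Ix F) : (F × F) × (F × F) →+ F × F := (fm i.1.1 i.1.2).prodMap (fm 0 i.1.2)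

/-- the opposite reguli -/
def lam' (i : Ix F) : (F × F) × (F × F) →+ F × F :=
  if i.1.1 = 0 then lam F i else
    AddMonoidHom.mk' (fun r => (vec i.1.2).1 • sg i.1.1 r.1 + (vec i.1.2).2 • r.2) fun a b => by
      simp only [Prod.fst_add, Prod.snd_add, map_add, smul_add]
      abel

variable {F}

lemma lam_apply (i : Ix F) (r : (F × F) × (F × F)) :
    lam F i r = (fm i.1.1 i.1.2 r.1, fm 0 i.1.2 r.2) := rfl

lemma lam'_apply {i : Ix F} (h : i.1.1 ≠ 0) (r : (F × F) × (F × F)) :
    lam' F i r = (vec i.1.2).1 • sg i.1.1 r.1 + (vec i.1.2).2 • r.2 := by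
  rw [lam', if_neg h]
  rfl

lemma lam_surj (i : Ix F) : Function.Surjective (lam F i) := by
  intro w
  obtain ⟨a, ha⟩ := fm_surj i.1.1 i.1.2 w.1
  obtain ⟨b, hb⟩ := fm_surj 0 i.1.2 w.2
  exact ⟨(a, b), by rw [lam_apply, ha, hb]⟩

lemma lam'_surj (i : Ix F) : Function.Surjective (lam' F i) := by
  by_cases h : i.1.1 = 0
  · rw [lam', if_pos h]
    exact lam_surj i
  · intro w
    obtain ⟨a, ha⟩ := sg_surj i.1.1 w
    rcases ho : i.1.2 with _ | x
    · exact ⟨(0, w), by simp [lam'_apply h, ho, vec]⟩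
    · exact ⟨(a, 0), by simp [lam'_apply h, ho, vec, ha]⟩

lemma card_filter_Ix (p : F → Option F → Prop) [∀ k o, Decidable (p k o)] :
    (univ.filter fun i : Ix F => p i.1.1 i.1.2).card =
      ∑ k, (univ.filter fun o => (k ≠ 0 ∨ o = none) ∧ p k o).card := by
  rw [← card_sigma]
  refine card_bij (fun i _ => ⟨i.1.1, i.1.2⟩) ?_ ?_ ?_
  · intro i hi
    simpa only [ne_eq, mem_sigma, mem_univ, mem_filter, true_and] using ⟨i.2, (mem_filter.1 hi).2⟩
  · rintro ⟨⟨a, b⟩, _⟩ - ⟨⟨c, d⟩, _⟩ - h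
    simpa using h
  · rintro ⟨k, o⟩ h
    simp only [mem_sigma, mem_univ, mem_filter, true_and] at h
    exact ⟨⟨(k, o), h.1⟩, by simpa only [ne_eq, mem_filter, mem_univ, true_and] using h.2, rfl⟩

lemma codeg_eq (d : (F × F) × (F × F)) : (univ.filter fun i => lam F i d = 0).card =
    (univ.filter fun i => lam' F i d = 0).card := by
  have e : ∀ i : Ix F, lam' F i d = 0 ↔ if i.1.1 = 0 then
      (fm i.1.1 i.1.2 d.1 = 0 ∧ fm 0 i.1.2 d.2 = 0) else
      (vec i.1.2).1 • sg i.1.1 d.1 + (vec i.1.2).2 • d.2 = 0 := by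
    intro i
    split_ifs with h
    · rw [lam', if_pos h, lam_apply, Prod.mk_eq_zero]
    · rw [lam'_apply h]
  simp only [e, lam_apply, Prod.mk_eq_zero]
  rw [card_filter_Ix fun k o => fm k o d.1 = 0 ∧ fm 0 o d.2 = 0,
    card_filter_Ix fun k o => if k = 0 then (fm k o d.1 = 0 ∧ fm 0 o d.2 = 0) else
      (vec o).1 • sg k d.1 + (vec o).2 • d.2 = 0]
  refine sum_congr rfl fun k _ => ?_
  by_cases h : k = 0
  · simp only [h, if_true]
  · have h1 := ker_count (sg k d.1).1 (sg k d.1).2 d.2.1 d.2.2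
    have h2 := ker_count (sg k d.1).1 d.2.1 (sg k d.1).2 d.2.2
    simp only [h, ne_eq, not_false_eq_true, true_or, true_and, if_false, fm_zero, Prod.ext_iff,
      Prod.fst_add, Prod.snd_add, Prod.smul_fst, Prod.smul_snd, smul_eq_mul, Prod.fst_zero,
      Prod.snd_zero]
    simp only [fm_apply, mul_comm (vec _).1, mul_comm (vec _).2]
    rw [h1, h2, mul_comm d.2.1]
    exact if_congr (by tauto) rfl rfl

lemma lam_conn (x : (F × F) × (F × F)) : ∃ i j z, lam F i z = 0 ∧ lam F j (x - z) = 0 := by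
  obtain ⟨a, ha⟩ := sg_surj (1 : F) ((sg 1 x.1).1, 0)
  refine ⟨⟨(1, none), Or.inr rfl⟩, ⟨(1, some 0), Or.inl one_ne_zero⟩, (a, (x.2.1, 0)), ?_, ?_⟩
  · rw [lam_apply, fm_zero]
    simp [fm_apply, ha, vec]
  · rw [lam_apply, fm_zero]
    simp [fm_apply, ha, vec]

lemma lam'_conn (x : (F × F) × (F × F)) : ∃ i j z, lam' F i z = 0 ∧ lam' F j (x - z) = 0 := by
  refine ⟨⟨(1, none), Or.inr rfl⟩, ⟨(1, some 0), Or.inl one_ne_zero⟩, (x.1, 0), ?_, ?_⟩
  · rw [lam'_apply one_ne_zero]
    simp [vec]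
  · rw [lam'_apply one_ne_zero]
    simp only [vec, Prod.fst_sub, sub_self, map_zero, smul_zero, Prod.snd_sub, sub_zero, zero_smul, add_zero]

/-- the twisted planes -/
def rl (a : F × Option F × F) (r : F × F) : Prop := fm a.1 a.2.1 r = a.2.2

open Classical in
lemma rl_count (H : BG) (c : H.V1 → Finset (F × Option F × F))
    (a2 : ∀ x, (c x).card ≤ 8 * Fintype.card F ^ 2)
    (a1 : ∀ x b, ((c x).filter (fun a => rl a b)).card ≤ 8 * Fintype.card F)
    (a0 : ∀ x b b', b ≠ b' → ((c x).filter (fun a => rl a b ∧ rl a b')).card ≤ 8) :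
    ((univ.filter fun φ : (H.V1 → F × Option F × F) × (H.V2 → F × F) =>
      (∀ e ∈ H.E, rl (φ.1 e.1) (φ.2 e.2)) ∧ ∀ x, φ.1 x ∈ c x).card : ℝ) ≤
        cst H 8 * (Fintype.card F : ℝ) ^ sVal H := by
  have hp : 0 < Fintype.card F := Fintype.card_pos
  refine hom_le H rl c _ 8 hp (by norm_num) a2 (by rw [Fintype.card_prod]; nlinarith) a1
    (fun a => ?_) a0 fun a a' h => ?_
  · have := card_fib (fm a.1 a.2.1) (fm_surj _ _) a.2.2
    rw [Fintype.card_prod] at this
    have e := Nat.eq_of_mul_eq_mul_right hp this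
    refine le_trans (le_of_eq ?_) (e.le.trans (by omega))
    congr
  · rcases (univ.filter (fun b => rl a b ∧ rl a' b)).eq_empty_or_nonempty with e | ⟨z, hz⟩
    · simp [e]
    obtain ⟨z1, z2⟩ := (mem_filter.1 hz).2
    refine le_trans (card_le_card_of_injOn (fun b => b - z) (fun b hb => ?_)
      fun a _ b _ h => sub_left_injective h) (meet_le (k := a.1) (k' := a'.1) (o := a.2.1)
        (o' := a'.2.1) fun e => h ?_)
    · obtain ⟨b1, b2⟩ := (mem_filter.1 hb).2
      unfold rl at b1 b2 z1 z2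
      simp only [coe_filter, mem_univ, true_and, Set.mem_ofPred_eq, map_sub, b1, z1, sub_self, b2, z2, and_self]
    · unfold rl at z1 z2
      exact Prod.ext e.1 (Prod.ext e.2 (by rw [← z1, ← z2, e.1, e.2]))

theorem lam_upper (H : BG) : (homCount H (mkBG (netE (lam F))) : ℝ) ≤
    cst H 8 ^ 2 * ((Fintype.card F * Fintype.card F : ℕ) : ℝ) ^ sVal H := by
  classical
  let S := fun c : H.V1 → Finset (F × Option F × F) =>
    univ.filter fun φ : (H.V1 → F × Option F × F) × (H.V2 → F × F) =>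
      (∀ e ∈ H.E, rl (φ.1 e.1) (φ.2 e.2)) ∧ ∀ x, φ.1 x ∈ c x
  have hp : 0 < Fintype.card F := Fintype.card_pos
  have h1 : ∀ o : H.V1 → Option F, ((S fun x => univ.filter fun a => a.2.1 = o x).card : ℝ) ≤
      cst H 8 * (Fintype.card F : ℝ) ^ sVal H := by
    intro o
    convert rl_count H (fun x => univ.filter fun a => a.2.1 = o x) (fun x => ?_) (fun x b => ?_)
      fun x b b' h => ?_
    · refine (card_le_card_of_injOn (t := univ) (fun a => (a.1, a.2.2)) (by simp) ?_).trans
        (by rw [card_univ, Fintype.card_prod]; nlinarith)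
      rintro ⟨_, _, _⟩ h ⟨_, _, _⟩ h' e
      simp_all
    · refine (card_le_card_of_injOn (t := univ) (fun a => a.1) (by simp) ?_).trans
        (by rw [card_univ]; omega)
      rintro ⟨_, _, _⟩ h ⟨_, _, _⟩ h' e
      simp only [coe_filter, mem_filter, mem_univ, true_and, Set.mem_ofPred_eq, rl] at h h' e
      obtain ⟨rfl, rfl⟩ := h
      obtain ⟨rfl, rfl⟩ := h'
      rw [e]
    · refine (card_le_card_of_injOn (fun a => a.1) ?_ ?_).trans
        (twist_le (o x) (b - b') (sub_ne_zero.2 h))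
      · rintro ⟨_, _, _⟩ h
        simp only [coe_filter, mem_filter, mem_univ, true_and, Set.mem_ofPred_eq, rl] at h ⊢
        obtain ⟨rfl, rfl, e⟩ := h
        rw [map_sub, e, sub_self]
      · rintro ⟨_, _, _⟩ h ⟨_, _, _⟩ h' e
        simp only [coe_filter, mem_filter, mem_univ, true_and, Set.mem_ofPred_eq, rl] at h h' e
        obtain ⟨rfl, rfl, -⟩ := h
        obtain ⟨rfl, rfl, -⟩ := h'
        rw [e]
  have h2 : ((S fun _ => univ.filter fun a => a.1 = 0).card : ℝ) ≤
      cst H 8 * (Fintype.card F : ℝ) ^ sVal H := by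
    convert rl_count H (fun _ => univ.filter fun a => a.1 = (0 : F)) (fun x => ?_) (fun x b => ?_)
      fun x b b' h => ?_
    · refine (card_le_card_of_injOn (t := univ) (fun a => a.2) (by simp) ?_).trans
        (by rw [card_univ, Fintype.card_prod, Fintype.card_option]; nlinarith only [])
      rintro ⟨_, _, _⟩ h ⟨_, _, _⟩ h' e
      simp_all
    · refine (card_le_card_of_injOn (t := univ) (fun a => a.2.1) (by simp) ?_).trans
        (by rw [card_univ, Fintype.card_option]; omega)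
      rintro ⟨_, _, _⟩ h ⟨_, _, _⟩ h' e
      simp only [coe_filter, mem_filter, mem_univ, true_and, Set.mem_ofPred_eq, rl] at h h' e
      obtain ⟨rfl, rfl⟩ := h
      obtain ⟨rfl, rfl⟩ := h'
      rw [e]
    · refine le_trans (card_le_one.2 ?_) (by norm_num)
      rintro ⟨_, o, _⟩ h ⟨_, o', _⟩ h'
      simp only [mem_filter, mem_univ, true_and, rl] at h h'
      obtain ⟨rfl, rfl, e⟩ := h
      obtain ⟨rfl, rfl, e'⟩ := h'
      rw [fm_zero, fm_zero] at e e'
      obtain rfl : o = o' := row_le (a := b.1 - b'.1) (b := b.2 - b'.2)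
        (fun e => h (Prod.ext (sub_eq_zero.1 e.1) (sub_eq_zero.1 e.2)))
        (by linear_combination -e) (by linear_combination -e')
      rfl
  have h3 : homCount H (mkBG (netE (lam F))) ≤ ((S fun _ => univ.filter fun a => a.1 = 0).sigma
      fun ψ => S fun x => univ.filter fun a => a.2.1 = (ψ.1 x).2.1).card := by
    rw [homCount_eq]
    refine card_le_card_of_injOn (fun φ =>
      ⟨(fun x => (0, (φ.1 x).1.1.2, (φ.1 x).2.2), fun y => (φ.2 y).2),
        (fun x => ((φ.1 x).1.1.1, (φ.1 x).1.1.2, (φ.1 x).2.1), fun y => (φ.2 y).1)⟩) ?_ ?_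
    · intro φ hφ
      have := fun e he => Prod.ext_iff.1 (mem_netE.1 (mem_homSet.1 (mem_coe.1 hφ) e he))
      simp only [S, coe_sigma, Set.mem_sigma_iff, coe_filter, mem_univ, true_and, mem_filter,
        Set.mem_ofPred_eq, implies_true, and_true]
      exact ⟨fun e he => (this e he).2, fun e he => (this e he).1⟩
    · intro φ _ ψ _ h
      simp only [Sigma.mk.injEq, Prod.mk.injEq, heq_eq_eq, funext_iff] at h
      refine Prod.ext (funext fun x => Prod.ext (Subtype.ext (Prod.ext (h.2.1 x).1 (h.2.1 x).2.1))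
        (Prod.ext (h.2.1 x).2.2 (h.1.1 x).2.2)) (funext fun y => Prod.ext (h.2.2 y) (h.1.2 y))
  rw [card_sigma] at h3
  refine (Nat.cast_le.2 h3).trans ?_
  push_cast
  refine (sum_le_card_nsmul _ _ _ fun ψ _ => h1 fun x => (ψ.1 x).2.1).trans ?_
  rw [nsmul_eq_mul, mul_zpow]
  exact (mul_le_mul_of_nonneg_right h2 (by positivity)).trans (le_of_eq (by ring))

end

abbrev K66 : BG := mkBG (univ : Finset (Fin 6 × Fin 6))

lemma sVal_K66 : sVal K66 ≤ 8 := by
  obtain ⟨H', f, g, -, -, h⟩ := exists_fVal_eq K66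
  have e : K66.E.image (fun e => (f e.1, g e.2)) = univ.image f ×ˢ univ.image g := by
    ext z
    simp only [mem_image, mem_univ, true_and, mem_product, Prod.exists, Prod.ext_iff]
    exact ⟨fun ⟨a, b, h⟩ => ⟨⟨a, h.1⟩, b, h.2⟩, fun ⟨⟨a, h⟩, b, h'⟩ => ⟨a, b, h, h'⟩⟩
  have a1 : (univ.image f).card ≤ 6 := card_image_le.trans (by simp)
  have a2 : (univ.image g).card ≤ 6 := card_image_le.trans (by simp)
  have b1 := card_pos.2 ⟨_, mem_image_of_mem f (mem_univ (0 : Fin 6))⟩
  have b2 := card_pos.2 ⟨_, mem_image_of_mem g (mem_univ (0 : Fin 6))⟩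
  rw [← h, fVal, e, card_product]
  generalize (univ.image f).card = a at *
  generalize (univ.image g).card = b at *
  interval_cases a <;> interval_cases b <;> norm_num

lemma hom_K66 (F : Type) [Field F] [Fintype F] [DecidableEq F] [CharP F 2] :
    (Fintype.card F - 1) ^ 6 * (Fintype.card F * Fintype.card F) ^ 6 ≤
      homCount K66 (mkBG (netE (lam' F))) := by
  classical
  have : Fintype.card ((Fin 6 → Fˣ) × (Fin 6 → F × F)) =
      (Fintype.card F - 1) ^ 6 * (Fintype.card F * Fintype.card F) ^ 6 := by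
    simp only [Fintype.card_prod, Fintype.card_pi, Fintype.card_units, prod_const, card_univ, Fintype.card_fin]
  rw [homCount_eq, ← this]
  refine card_le_card_of_injOn (fun φ => (fun x => (⟨(φ.1 x, none), Or.inr rfl⟩, 0),
    fun y => (φ.2 y, 0))) ?_ ?_
  · intro φ _
    rw [mem_coe, mem_homSet]
    intro e _
    rw [mem_netE, lam'_apply (φ.1 e.1).ne_zero]
    simp [vec]
  · intro φ _ ψ _ h
    simp only [Prod.mk.injEq, funext_iff, Subtype.mk.injEq, and_true, Units.val_inj] at h
    exact Prod.ext (funext h.1) (funext h.2)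

lemma logDens_eq (H G : BG) {q : ℕ} (hq : 2 ≤ q) (h1 : Fintype.card G.V1 = q ^ 2)
    (h2 : Fintype.card G.V2 = q ^ 2) (hr : IsRegularOf G q) (h0 : (0 : ℝ) < homCount H G) :
    logDens H G = 2 * numV H - Real.log (homCount H G) / Real.log q := by
  have hq' : (1 : ℝ) < q := by exact_mod_cast hq
  have hE : G.E.card = q ^ 2 * q := by
    rw [card_eq_sum_card_fiberwise (f := Prod.fst) (t := univ) fun _ _ => mem_univ _, ← h1,
      ← card_univ, ← smul_eq_mul, ← sum_const]
    refine sum_congr rfl fun x _ => ?_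
    rw [← hr.1 x]
    refine card_bij (fun e _ => e.2) ?_ ?_ ?_
    · intro e he
      obtain ⟨h, rfl⟩ := mem_filter.1 he
      simpa only [mem_filter, mem_univ, Prod.mk.eta, true_and] using h
    · intro e he e' he' h
      exact Prod.ext ((mem_filter.1 he).2.trans (mem_filter.1 he').2.symm) h
    · intro y hy
      exact ⟨(x, y), mem_filter.2 ⟨(mem_filter.1 hy).2, rfl⟩, rfl⟩
  have hK : tB K2 G = (q : ℝ)⁻¹ := by
    rw [tB, homCount_K2, hE, h1, h2]
    simp only [K2, Fintype.card_unique]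
    push_cast
    field_simp
  have hl := Real.log_pos hq'
  rw [logDens, hK, if_neg (inv_lt_one_of_one_lt₀ hq').ne, Real.log_inv, tB, h1, h2,
    Real.log_div h0.ne' (by positivity), numV]
  push_cast
  rw [← pow_add, ← pow_mul, Real.log_pow]
  push_cast
  field_simp
  ring

theorem main_result : ∃ G G' : ℕ → BG,
    (∀ n, (G n).E.Nonempty ∧ (G' n).E.Nonempty ∧
      Fintype.card (G n).V1 = (4 ^ (n + 3)) ^ 2 ∧ Fintype.card (G n).V2 = (4 ^ (n + 3)) ^ 2 ∧
      Fintype.card (G' n).V1 = (4 ^ (n + 3)) ^ 2 ∧ Fintype.card (G' n).V2 = (4 ^ (n + 3)) ^ 2 ∧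
      IsRegularOf (G n) (4 ^ (n + 3)) ∧ IsRegularOf (G' n) (4 ^ (n + 3)) ∧
      (toGraph (G n)).Connected ∧ (toGraph (G' n)).Connected ∧ spec (G n) = spec (G' n)) ∧
    HasQuasirandomLogLimit G ∧ ¬ HasQuasirandomLogLimit G' := by
  classical
  let F := fun n => GaloisField 2 (n + 3)
  let _ : ∀ n, Fintype (F n) := fun n => Fintype.ofFinite _
  have hF : ∀ n, Fintype.card (F n) = 2 ^ (n + 3) := fun n => by
    rw [← Nat.card_eq_fintype_card]
    exact GaloisField.card 2 (n + 3) (by omega)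
  have hY : ∀ n, Fintype.card (F n) * Fintype.card (F n) = 4 ^ (n + 3) := fun n => by
    rw [hF, ← mul_pow]
    rfl
  have hI : ∀ n, Fintype.card (Ix (F n)) = 4 ^ (n + 3) := fun n => (card_Ix _).trans (hY n)
  have hY' : ∀ n, Fintype.card (F n × F n) = 4 ^ (n + 3) := fun n =>
    (Fintype.card_prod _ _).trans (hY n)
  have hX : ∀ n, Fintype.card ((F n × F n) × (F n × F n)) = 4 ^ (n + 3) * 4 ^ (n + 3) := fun n => by
    rw [Fintype.card_prod, hY']
  have hq : ∀ n, 2 ≤ 4 ^ (n + 3) := fun n => le_trans (by norm_num) (Nat.le_self_pow (by omega) 4)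
  have hV : ∀ n, Fintype.card (Ix (F n) × (F n × F n)) = (4 ^ (n + 3)) ^ 2 := fun n => by
    rw [Fintype.card_prod, hI, hY', sq]
  have hL : ∀ n (l : Ix (F n) → (F n × F n) × (F n × F n) →+ F n × F n)
      (hl : ∀ i, Function.Surjective (l i)) (H : BG), logDens H (mkBG (netE l)) = 2 * numV H -
        Real.log (homCount H (mkBG (netE l))) / Real.log (4 ^ (n + 3) : ℕ) := fun n l hl H =>
    logDens_eq H _ (hq n) (hV n) ((hX n).trans (sq _).symm) (net_reg l hl (hI n) (hY' n) (hX n))
      (lt_of_lt_of_le (by positivity) (net_lower l (hI n) (hY' n) (hX n) H))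
  have hlog : ∀ n, 0 < Real.log (4 ^ (n + 3) : ℕ) := fun n =>
    Real.log_pos (by exact_mod_cast hq n)
  refine ⟨fun n => mkBG (netE (lam (F n))), fun n => mkBG (netE (lam' (F n))), fun n =>
    ⟨⟨((⟨(0, none), Or.inr rfl⟩, 0), 0), mem_netE.2 (map_zero _)⟩,
      ⟨((⟨(0, none), Or.inr rfl⟩, 0), 0), mem_netE.2 (map_zero _)⟩, hV n,
      (hX n).trans (sq _).symm, hV n, (hX n).trans (sq _).symm,
      net_reg _ lam_surj (hI n) (hY' n) (hX n), net_reg _ lam'_surj (hI n) (hY' n) (hX n),
      net_conn _ lam_surj lam_conn, net_conn _ lam'_surj lam'_conn,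
      spec_eq_of_codeg _ _ fun y y' => by rw [net_codeg, net_codeg, codeg_eq]⟩, fun H _ => ?_,
    fun h => ?_⟩
  · have hs : (rVal H : ℝ) = 2 * numV H - sVal H := by
      unfold sVal
      push_cast
      ring
    have ht : Tendsto (fun n : ℕ => Real.log (4 ^ (n + 3) : ℕ)) atTop atTop :=
      Real.tendsto_log_atTop.comp (tendsto_natCast_atTop_atTop.comp
        ((tendsto_pow_atTop_atTop_of_one_lt (by norm_num)).comp (tendsto_add_atTop_nat 3)))
    have h0 : Tendsto (fun n : ℕ => (rVal H : ℝ) -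
        Real.log (cst H 8 ^ 2) / Real.log (4 ^ (n + 3) : ℕ)) atTop (𝓝 (rVal H)) := by
      simpa only [sub_zero] using (tendsto_const_nhds (x := (rVal H : ℝ))).sub
        (ht.const_div_atTop (Real.log (cst H 8 ^ 2)))
    refine tendsto_of_tendsto_of_tendsto_of_le_of_le h0 tendsto_const_nhds (fun n => ?_) fun n => ?_
    · have a := net_lower (lam (F n)) (hI n) (hY' n) (hX n) H
      have b := lam_upper (F := F n) H
      rw [hY] at b
      have c : (0 : ℝ) < ((4 ^ (n + 3) : ℕ) : ℝ) ^ sVal H := by positivity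
      have d := Real.log_le_log (c.trans_le a) b
      rw [Real.log_mul (fun e => by rw [e] at b; linarith) c.ne', Real.log_zpow] at d
      have := (div_le_div_of_nonneg_right d (hlog n).le)
      rw [add_div, mul_div_assoc, div_self (hlog n).ne'] at this
      simp only [hL n _ lam_surj, hs]
      linarith only [this]
    · have a := Real.log_le_log (by positivity) (net_lower (lam (F n)) (hI n) (hY' n) (hX n) H)
      rw [Real.log_zpow, ← le_div_iff₀ (hlog n)] at a
      simp only [hL n _ lam_surj, hs]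
      linarith
  · have h1 := le_of_tendsto' (b := 31 / 2) (h K66 univ_nonempty) fun n => by
      have a := hom_K66 (F n)
      rw [hY, hF] at a
      have b : 2 ^ ((n + 3) * 17) ≤ (2 ^ (n + 3) - 1) ^ 6 * (4 ^ (n + 3)) ^ 6 := by
        rw [pow_mul, show (4 : ℕ) = 2 * 2 from rfl, mul_pow]
        obtain ⟨m, hm⟩ : ∃ m, 2 ^ (n + 3) = m + 8 :=
          ⟨2 ^ (n + 3) - 8, by have := Nat.pow_le_pow_right two_pos (Nat.le_add_left 3 n); omega⟩
        rw [hm, show (m + 8) ^ 17 = (m + 8) ^ 5 * ((m + 8) * (m + 8)) ^ 6 by ring]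
        refine Nat.mul_le_mul_right _ ?_
        rw [show m + 8 - 1 = m + 7 by omega]
        exact Nat.le.intro (k := m ^ 6 + 41 * m ^ 5 + 695 * m ^ 4 + 6220 * m ^ 3 +
          30895 * m ^ 2 + 80362 * m + 84881) (by ring)
      have c := Real.log_le_log (by positivity) (Nat.cast_le (α := ℝ).2 (b.trans a))
      have d : Real.log ((2 ^ ((n + 3) * 17) : ℕ) : ℝ) = 17 / 2 * Real.log (4 ^ (n + 3) : ℕ) := by
        push_cast
        rw [show (4 : ℝ) = 2 ^ 2 by norm_num, ← pow_mul, Real.log_pow, Real.log_pow]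
        push_cast
        ring
      rw [d, ← le_div_iff₀ (hlog n)] at c
      have e : numV K66 = 12 := by simp [numV]
      simp only [hL n _ lam'_surj, e]
      push_cast at c ⊢
      linarith only [c]
    have h2 := sVal_K66
    have e : numV K66 = 12 := by simp [numV]
    rw [sVal, e] at h2
    have h3 : (16 : ℝ) ≤ rVal K66 := by exact_mod_cast (show (16 : ℤ) ≤ rVal K66 by omega)
    linarith only [h1, h3]

end Pool.Agent.MP_8fd344_co.Reg

end
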